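import Pool.Agent.Work.MP_9d1ffa_al.GN.AlE

/-! Places for a finitely generated algebra of any transcendence degree. -/

namespace Pool.Agent.Work.MP_9d1ffa_al.GN

open IntermediateField
open G2 (Pl)

/-- Integrality passes to a larger subring of coefficients. -/
theorem Fl_int {R K : Type} [CommRing R] [Field K] [Algebra R K] {S : Type} [SetLike S K]
    [SubringClass S K] (B : S) (h : ∀ y : R, algebraMap R K y ∈ B) {x : K}
    (hx : IsIntegral R x) : IsIntegral (Subring.ofClass B) x :=
  hx.map_of_comp_eq ((algebraMap R K).codRestrict (Subring.ofClass B) h) (RingHom.id K)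
    (RingHom.ext fun _ => rfl)

/-- Noether normalisation inside a field. -/
theorem Fl_noether {k K : Type} [Field k] [Field K] [Algebra k K] {T : Set K} (hT : T.Finite) :
    ∃ (d : ℕ) (u : Fin d → K), AlgebraicIndependent k u ∧
      ∀ t ∈ T, IsIntegral (Algebra.adjoin k (Set.range u)) t := by
  have : Algebra.FiniteType k (Algebra.adjoin k T) :=
    (Subalgebra.fg_iff_finiteType _).1 ⟨hT.toFinset, by rw [hT.coe_toFinset]⟩
  obtain ⟨d, g, hg, hi⟩ := exists_integral_inj_algHom_of_fg k (Algebra.adjoin k T)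
  let G : MvPolynomial (Fin d) k →ₐ[k] K := (Algebra.adjoin k T).val.comp g
  have hG : MvPolynomial.aeval (fun i => G (MvPolynomial.X i)) = G :=
    MvPolynomial.algHom_ext fun i => MvPolynomial.aeval_X _ i
  refine ⟨d, fun i => G (MvPolynomial.X i), ?_, fun t ht => ?_⟩
  · rw [algebraicIndependent_iff_injective_aeval, hG]
    exact Subtype.val_injective.comp hg
  · have hmem : ∀ p, G p ∈ Algebra.adjoin k (Set.range fun i => G (MvPolynomial.X i)) := by
      intro p
      rw [Algebra.adjoin_range_eq_range_aeval, hG]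
      exact ⟨p, rfl⟩
    letI : Algebra (MvPolynomial (Fin d) k) (Algebra.adjoin k T) := g.toRingHom.toAlgebra
    have h1 : IsIntegral (MvPolynomial (Fin d) k)
        (⟨t, Algebra.subset_adjoin ht⟩ : Algebra.adjoin k T) := hi _
    exact h1.map_of_comp_eq
      (G.toRingHom.codRestrict
        (Algebra.adjoin k (Set.range fun i => G (MvPolynomial.X i))).toSubring hmem)
      (Algebra.adjoin k T).val.toRingHom (RingHom.ext fun _ => rfl)

/-- Algebraic over `k[u]` and over every `k[u_j, j ≠ i]` implies algebraic over `k`. -/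
theorem Fl_alg {k K : Type} [Field k] [Field K] [Algebra k K] {d : ℕ} {u : Fin d → K}
    (hu : AlgebraicIndependent k u) {x : K}
    (h0 : IsAlgebraic (Algebra.adjoin k (Set.range u)) x)
    (h : ∀ i, IsAlgebraic (Algebra.adjoin k (u '' {i}ᶜ)) x) : IsAlgebraic k x := by
  classical
  have hcl : ∀ s : Set K, x ∈ (AlgebraicIndependent.matroid k K).closure s ↔
      IsAlgebraic (Algebra.adjoin k s) x := fun s => by
    rw [AlgebraicIndependent.matroid_closure_eq, SetLike.mem_coe,
      Subalgebra.mem_algebraicClosure]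
  have hind : (AlgebraicIndependent.matroid k K).Indep (Set.range u) :=
    AlgebraicIndependent.matroid_indep_iff.2 hu.to_subtype_range
  have key : ∀ s : Finset (Fin d),
      x ∈ (AlgebraicIndependent.matroid k K).closure (u '' (s : Set (Fin d))ᶜ) := by
    intro s
    induction s using Finset.induction_on with
    | empty =>
      rw [Finset.coe_empty, Set.compl_empty, Set.image_univ]
      exact (hcl _).2 h0
    | insert i s _ ih =>
      have e : ((insert i s : Finset (Fin d)) : Set (Fin d))ᶜ = {i}ᶜ ∩ (s : Set (Fin d))ᶜ := by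
        rw [Finset.coe_insert, Set.insert_eq, Set.compl_union]
      rw [e, Set.image_inter hu.injective, Matroid.Indep.closure_inter_eq_inter_closure
        (hind.subset (Set.union_subset (Set.image_subset_range _ _)
          (Set.image_subset_range _ _)))]
      exact ⟨(hcl _).2 (h i), ih⟩
  have h1 := (hcl _).1 (key Finset.univ)
  rw [Finset.coe_univ, Set.compl_univ, Set.image_empty] at h1
  have : Algebra.IsAlgebraic k (Algebra.adjoin k (∅ : Set K)) :=
    (Algebra.IsIntegral.adjoin fun y hy => absurd hy (Set.notMem_empty y)).isAlgebraic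
  exact h1.restrictScalars k

/-- The places attached to one variable. -/
theorem Fl_one {k K : Type} [Field k] [Field K] [Algebra k K] {T : Set K} (hT : T.Finite)
    (htop : adjoin k T = ⊤) {d : ℕ} {u : Fin d → K} (hu : AlgebraicIndependent k u)
    (hint : ∀ t ∈ T, IsIntegral (Algebra.adjoin k (Set.range u)) t) (i : Fin d) :
    ∃ (I : Type) (_ : Fintype I) (av : I → AbsoluteValue K ℝ), (∀ j, Pl (av j)) ∧
      Low av (integralClosure (Algebra.adjoin k (Set.range u)) K).toSubring ∧
      ∀ x : K, IsIntegral (Algebra.adjoin k (Set.range u)) x → (∀ j, av j x ≤ 1) →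
        IsAlgebraic (Algebra.adjoin k (u '' {i}ᶜ)) x := by
  let k' : IntermediateField k K := adjoin k (u '' {i}ᶜ)
  have htr : Transcendental k' (u i) :=
    transcendental_adjoin_iff.2 (hu.transcendental_adjoin (s := {i}ᶜ) fun h => h rfl)
  have hle : Algebra.adjoin k (Set.range u) ≤ (Algebra.adjoin k' {u i}).restrictScalars k := by
    refine Algebra.adjoin_le ?_
    rintro _ ⟨j, rfl⟩
    by_cases hj : j = i
    · rw [hj]
      exact Algebra.self_mem_adjoin_singleton k' (u i)
    · exact (Algebra.adjoin k' {u i}).algebraMap_mem ⟨u j, subset_adjoin k _ ⟨j, hj, rfl⟩⟩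
  have hup : ∀ x : K, IsIntegral (Algebra.adjoin k (Set.range u)) x →
      IsIntegral (Algebra.adjoin k' {u i}) x := fun x hx =>
    Fl_int (Algebra.adjoin k' {u i}) (fun y => hle y.2) hx
  have hF : ∀ t ∈ T, IsIntegral k'⟮u i⟯ t := fun t ht => by
    open scoped IntermediateField.algebraAdjoinAdjoin in
    exact (hup t (hint t ht)).tower_top
  have hfin : FiniteDimensional k'⟮u i⟯ K := by
    have : Finite T := hT
    have h1 : FiniteDimensional k'⟮u i⟯ (adjoin k'⟮u i⟯ T) := finiteDimensional_adjoin hF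
    have h2 : adjoin k'⟮u i⟯ T = ⊤ :=
      adjoin_eq_top_of_adjoin_eq_top k' (adjoin_eq_top_of_adjoin_eq_top k htop)
    rw [h2] at h1
    exact topEquiv.toLinearEquiv.finiteDimensional
  have hg : Transcendental k' (AdjoinSimple.gen k' (u i)) := fun h =>
    htr (by simpa using h.algHom (k'⟮u i⟯).val)
  obtain ⟨I, hI, av, ha, hL, hZ⟩ := placesL (K := K) hg (G2.gen_top (u i))
  refine ⟨I, hI, av, ha, fun R => ?_, fun x hx h => ?_⟩
  · obtain ⟨L, hL⟩ := hL R
    exact ⟨L, fun x hx => hL x (hup x hx)⟩
  · exact isAlgebraic_adjoin_iff.1 (hZ x (hup x hx) h)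

theorem Fl_core {k K : Type} [Field k] [Field K] [Algebra k K] {T : Set K} (hT : T.Finite)
    (htop : adjoin k T = ⊤) :
    ∃ (I : Type) (_ : Fintype I) (av : I → AbsoluteValue K ℝ) (A : Subring K),
      (∀ i, Pl (av i)) ∧ Low av A ∧ (∀ t ∈ T, t ∈ A) ∧
      ∀ x ∈ A, (∀ i, av i x ≤ 1) → IsAlgebraic k x := by
  obtain ⟨d, u, hu, hint⟩ := Fl_noether (k := k) hT
  choose I hI av ha hL hZ using Fl_one hT htop hu hint
  refine ⟨Σ i, I i, inferInstance, fun p => av p.1 p.2,
    (integralClosure (Algebra.adjoin k (Set.range u)) K).toSubring, fun p => ha p.1 p.2,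
    fun R => ?_, hint, fun x hx h => ?_⟩
  · choose L hL using fun i => hL i R
    refine ⟨∑ i, |L i|, fun x hx h ⟨p, hp⟩ => hL p.1 x hx (fun j => h ⟨p.1, j⟩) ⟨p.2, ?_⟩⟩
    refine hp.trans (Real.exp_le_exp.2 (neg_le_neg ((le_abs_self _).trans ?_)))
    exact Finset.single_le_sum (f := fun i => |L i|) (fun _ _ => abs_nonneg _)
      (Finset.mem_univ p.1)
  · exact Fl_alg hu (IsIntegral.isAlgebraic hx) fun i => hZ i x hx fun j => h ⟨i, j⟩

/-- Noether normalisation gives algebraically independent `u` in `K = k(T)` with `T` integral over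
`k[u]`; take the places of `placesL` for every base field `k(u_j, j ≠ i)` and the element `u_i`. -/
theorem exists_places (k E : Type) [Field k] [Field E] [Algebra k E] (T : Finset E) :
    ∃ (K : Type) (_ : Field K) (f : K →+* E) (I : Type) (_ : Fintype I)
      (av : I → AbsoluteValue K ℝ) (A : Subring K), (∀ i, Pl (av i)) ∧ Low av A ∧
      (∀ t ∈ T, t ∈ A.map f) ∧ ∀ x ∈ A, (∀ i, av i x ≤ 1) → IsAlgebraic k (f x) := by
  let K : IntermediateField k E := adjoin k (T : Set E)
  have hT : (Subtype.val ⁻¹' (T : Set E) : Set K).Finite :=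
    T.finite_toSet.preimage Subtype.val_injective.injOn
  have htop : adjoin k (Subtype.val ⁻¹' (T : Set E) : Set K) = ⊤ := by
    apply lift_injective K
    rw [lift_adjoin, lift_top, Set.image_preimage_eq_of_subset]
    intro t ht
    exact ⟨⟨t, subset_adjoin k _ ht⟩, rfl⟩
  obtain ⟨I, hI, av, A, ha, hL, hA, hZ⟩ := Fl_core hT htop
  exact ⟨K, inferInstance, K.val.toRingHom, I, hI, av, A, ha, hL,
    fun t ht => ⟨⟨t, subset_adjoin k _ ht⟩, hA _ ht, rfl⟩,
    fun x hx h => (hZ x hx h).algHom K.val⟩

end Pool.Agent.Work.MP_9d1ffa_al.GN
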