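import Pool.Agent.Work.MP_9d1ffa_al.Sq.Cv

/-! Calculus of controlled morphisms and controlled homotopies. -/

namespace Pool.Agent.Work.MP_9d1ffa_al.Dg

variable {X K Y : Type} [Group K] [MulAction K Y] {ρ : K →* Equiv.Perm X} {Nb : ℕ → Y → Y → Prop}

theorem Sca.mono (hs : Sca K Nb) {m n : ℕ} (h : m ≤ n) {x y : Y} (k : Nb m x y) : Nb n x y := by
  obtain ⟨c, rfl⟩ := Nat.exists_eq_add_of_le h
  exact hs.tr k (hs.rf c y)

section

variable {R : Type} [Ring R] {I I' J J' L : Ob X} {p : I.I → Y} {p' : I'.I → Y} {q : J.I → Y}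
  {q' : J'.I → Y} {r : L.I → Y} {m n : ℕ} {f f' : (OA R ρ).Hom I J} {g : (OA R ρ).Hom J L}

theorem Ct.mono (hs : Sca K Nb) (h : Ct Nb p q m f) (k : m ≤ n) : Ct Nb p q n f :=
  On.mono h fun _ _ _ e => hs.mono k e

theorem Ct.mul (hs : Sca K Nb) (h : Ct Nb p q m f) (h' : Ct Nb q r n g) :
    Ct Nb p r (m + n) (f * g) := On.rmul h h' (hs.inv n) fun _ _ _ => hs.tr

theorem Ct.add (hs : Sca K Nb) (h : Ct Nb p q m f) (h' : Ct Nb p q n f') :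
    Ct Nb p q (m + n) (f + f') :=
  On.add (h.mono hs (Nat.le_add_right _ _)) (h'.mono hs (Nat.le_add_left _ _))

theorem Ct.neg (h : Ct Nb p q m f) : Ct Nb p q m (-f) := On.neg h

theorem Ct.sub (hs : Sca K Nb) (h : Ct Nb p q m f) (h' : Ct Nb p q n f') :
    Ct Nb p q (m + n) (f - f') := by
  rw [sub_eq_add_neg]; exact h.add hs h'.neg

theorem ct_zero : Ct Nb p q n (0 : (OA R ρ).Hom I J) := on_zero

theorem ct_one (hs : Sca K Nb) : Ct Nb p p n (1 : (OA R ρ).Hom I I) :=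
  on_one fun i => by
    change Nb n (p i) ((1 : K) • p i)
    rw [one_smul]
    exact hs.rf _ _

theorem Ct.pow (hs : Sca K Nb) {f : (OA R ρ).Hom I I} (h : Ct Nb p p m f) (k : ℕ) :
    Ct Nb p p (k * m) (f ^ k) := by
  induction k with
  | zero => rw [pow_zero]; exact ct_one hs
  | succ k ih => rw [pow_succ, Nat.succ_mul]; exact ih.mul hs h

theorem ct_rows {g : (OA R ρ).Hom I' J} :
    Ct Nb (I := I + I') (Sum.elim p p') q n (fromRows f g) ↔ Ct Nb p q n f ∧ Ct Nb p' q n g :=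
  on_fromRows

theorem ct_cols {g : (OA R ρ).Hom I J'} :
    Ct Nb (J := J + J') p (Sum.elim q q') n (fromCols f g) ↔ Ct Nb p q n f ∧ Ct Nb p q' n g :=
  on_fromCols

theorem ct_blocks {g : (OA R ρ).Hom I J'} {u : (OA R ρ).Hom I' J} {v : (OA R ρ).Hom I' J'} :
    Ct Nb (I := I + I') (J := J + J') (Sum.elim p p') (Sum.elim q q') n (fromBlocks f g u v) ↔
      Ct Nb p q n f ∧ Ct Nb p q' n g ∧ Ct Nb p' q n u ∧ Ct Nb p' q' n v :=
  on_fromBlocks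

end

variable {Λ : DG} {a a' b b' c : Tw Λ ρ} {p : a.ob.I → Y} {p' : a'.ob.I → Y} {q : b.ob.I → Y}
  {q' : b'.ob.I → Y} {r : c.ob.I → Y} {m n k : ℕ} {f f' : Mor a b} {g : Mor b c}

theorem Ct.D1 (hs : Sca K Nb) (ha : Ct Nb p p m a.δ) (hb : Ct Nb q q m b.δ) (h : Ct Nb p q n f) :
    Ct Nb p q (m + n) (D1 a b f) :=
  On.add (On.add (On.pd (h.mono hs (Nat.le_add_left _ _)) _) (ha.mul hs h))
    ((h.mul hs hb).mono hs (Nat.add_comm _ _).le)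

/-- controlled chain maps -/
structure Cc (Nb : ℕ → Y → Y → Prop) {a b : Tw Λ ρ} (p : a.ob.I → Y) (q : b.ob.I → Y) (n : ℕ)
    (f : Mor a b) : Prop where
  ch : Ch a b f
  ct : Ct Nb p q n f

/-- maps with a controlled null homotopy -/
def Hn (Nb : ℕ → Y → Y → Prop) {a b : Tw Λ ρ} (p : a.ob.I → Y) (q : b.ob.I → Y) (n : ℕ)
    (f : Mor a b) : Prop := ∃ t, Gd (-1) a.deg b.deg t ∧ Ct Nb p q n t ∧ f = D1 a b t

theorem Cc.mono (hs : Sca K Nb) (h : Cc Nb p q m f) (e : m ≤ n) : Cc Nb p q n f :=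
  ⟨h.ch, h.ct.mono hs e⟩

theorem Cc.mul (hs : Sca K Nb) (h : Cc Nb p q m f) (h' : Cc Nb q r n g) :
    Cc Nb p r (m + n) (f * g) := ⟨h.ch.mul h'.ch, h.ct.mul hs h'.ct⟩

theorem Cc.add (hs : Sca K Nb) (h : Cc Nb p q m f) (h' : Cc Nb p q n f') :
    Cc Nb p q (m + n) (f + f') := ⟨h.ch.add h'.ch, h.ct.add hs h'.ct⟩

theorem Cc.sub (hs : Sca K Nb) (h : Cc Nb p q m f) (h' : Cc Nb p q n f') :
    Cc Nb p q (m + n) (f - f') := ⟨h.ch.sub h'.ch, h.ct.sub hs h'.ct⟩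

theorem cc_zero : Cc Nb p q n (0 : Mor a b) := ⟨ch_zero, ct_zero⟩

theorem cc_one (hs : Sca K Nb) : Cc Nb p p n (1 : Mor a a) := ⟨ch_one, ct_one hs⟩

theorem Cc.rows {g : Mor a' b} (h : Cc Nb p q n f) (h' : Cc Nb p' q n g) :
    Cc Nb (a := a + a') (Sum.elim p p') q n (fromRows f g) :=
  ⟨ch_fromRows.2 ⟨h.ch, h'.ch⟩, ct_rows.2 ⟨h.ct, h'.ct⟩⟩

theorem Cc.cols {g : Mor a b'} (h : Cc Nb p q n f) (h' : Cc Nb p q' n g) :
    Cc Nb (b := b + b') p (Sum.elim q q') n (fromCols f g) :=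
  ⟨ch_fromCols.2 ⟨h.ch, h'.ch⟩, ct_cols.2 ⟨h.ct, h'.ct⟩⟩

theorem Cc.diag {g : Mor a' b'} (h : Cc Nb p q n f) (h' : Cc Nb p' q' n g) :
    Cc Nb (a := a + a') (b := b + b') (Sum.elim p p') (Sum.elim q q') n (fromBlocks f 0 0 g) :=
  (h.cols cc_zero).rows (cc_zero.cols h')

theorem Hn.nh (h : Hn Nb p q n f) : Nh a b f := h.imp fun _ e => ⟨e.1, e.2.2⟩

theorem Hn.mono (hs : Sca K Nb) (h : Hn Nb p q m f) (e : m ≤ n) : Hn Nb p q n f :=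
  h.imp fun _ k => ⟨k.1, k.2.1.mono hs e, k.2.2⟩

theorem hn_zero : Hn Nb p q n (0 : Mor a b) := ⟨0, gd_zero, ct_zero, D1_zero.symm⟩

theorem Hn.add (hs : Sca K Nb) (h : Hn Nb p q m f) (h' : Hn Nb p q n f') :
    Hn Nb p q (m + n) (f + f') :=
  let ⟨t, h1, h2, h3⟩ := h
  let ⟨t', k1, k2, k3⟩ := h'
  ⟨t + t', h1.add k1, h2.add hs k2, by rw [D1_add, h3, k3]⟩

theorem Hn.neg (h : Hn Nb p q m f) : Hn Nb p q m (-f) :=
  let ⟨t, h1, h2, h3⟩ := h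
  ⟨-t, h1.neg, h2.neg, by rw [D1_neg, h3]⟩

theorem Hn.sub (hs : Sca K Nb) (h : Hn Nb p q m f) (h' : Hn Nb p q n f') :
    Hn Nb p q (m + n) (f - f') := by
  rw [sub_eq_add_neg]; exact h.add hs h'.neg

theorem Hn.rmul (hs : Sca K Nb) (h : Hn Nb p q m f) (h' : Cc Nb q r n g) :
    Hn Nb p r (m + n) (f * g) :=
  let ⟨t, h1, h2, h3⟩ := h
  ⟨t * g, h1.mul' h'.ch.gd (add_zero _), h2.mul hs h'.ct, by
    rw [h3, h'.ch.D1_mul h1 odd_neg_one']⟩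

theorem Cc.lmul (hs : Sca K Nb) (h : Cc Nb p q m f) (h' : Hn Nb q r n g) :
    Hn Nb p r (m + n) (f * g) :=
  let ⟨t, h1, h2, h3⟩ := h'
  ⟨f * t, h.ch.gd.mul' h1 (zero_add _), h.ct.mul hs h2, by rw [h3, h.ch.mul_D1]⟩

theorem Hn.rows {g : Mor a' b} (h : Hn Nb p q n f) (h' : Hn Nb p' q n g) :
    Hn Nb (a := a + a') (Sum.elim p p') q n (fromRows f g) :=
  let ⟨t, h1, h2, h3⟩ := h
  let ⟨t', k1, k2, k3⟩ := h'
  ⟨fromRows t t', gd_fromRows.2 ⟨h1, k1⟩, ct_rows.2 ⟨h2, k2⟩, by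
    rw [h3, k3]
    exact ((D1_rows co_zero t t').trans (by rw [Hm.zero_mul, add_zero])).symm⟩

theorem Hn.cols {g : Mor a b'} (h : Hn Nb p q n f) (h' : Hn Nb p q' n g) :
    Hn Nb (b := b + b') p (Sum.elim q q') n (fromCols f g) :=
  let ⟨t, h1, h2, h3⟩ := h
  let ⟨t', k1, k2, k3⟩ := h'
  ⟨fromCols t t', gd_fromCols.2 ⟨h1, k1⟩, ct_cols.2 ⟨h2, k2⟩, by
    rw [h3, k3]
    exact ((D1_cols co_zero t t').trans (by rw [Hm.mul_zero, add_zero])).symm⟩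

theorem Hn.diag {g : Mor a' b'} (h : Hn Nb p q n f) (h' : Hn Nb p' q' n g) :
    Hn Nb (a := a + a') (b := b + b') (Sum.elim p p') (Sum.elim q q') n (fromBlocks f 0 0 g) :=
  (h.cols hn_zero).rows (hn_zero.cols h')

theorem ct_cn (hf : Cc Nb p q n f) (ha : Ct Nb p p n a.δ) (hb : Ct Nb q q n b.δ) :
    Ct Nb (I := a.ob + b.ob) (J := a.ob + b.ob) (Sum.elim p q) (Sum.elim p q) n (cn f hf.ch).δ :=
  ct_blocks.2 ⟨ha.neg, hf.ct, ct_zero, hb⟩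

theorem hn_cn (hs : Sca K Nb) {g : Mor b a} (hf : Cc Nb p q n f) (hg : Cc Nb q p n g)
    (ha : Ct Nb p p n a.δ) (hb : Ct Nb q q n b.δ) (h1 : Hn Nb p p n (f * g - 1))
    (h2 : Hn Nb q q n (g * f - 1)) :
    Hn Nb (a := cn f hf.ch) (b := cn f hf.ch) (Sum.elim p q) (Sum.elim p q) (3 * n) 1 := by
  obtain ⟨t, ht, ct, et⟩ := h1
  obtain ⟨k, hk, ck, ek⟩ := h2
  have ht' : Gd (-1) (sh a).deg (sh a).deg t := ht.shift fun i j => by ring
  have hg' : Gd (-1) b.deg (sh a).deg g := hg.ch.gd.shift fun i j => by ring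
  have G0 : Gd (-1) (cn f hf.ch).deg (cn f hf.ch).deg
      (fromBlocks t (0 : Mor a b) g (-k) : Mor (cn f hf.ch) (cn f hf.ch)) :=
    gd_fromBlocks.2 ⟨ht', gd_zero, hg', hk.neg⟩
  have C0 : Ct Nb (I := a.ob + b.ob) (J := a.ob + b.ob) (Sum.elim p q) (Sum.elim p q) n
      (fromBlocks t (0 : Mor a b) g (-k)) := ct_blocks.2 ⟨ct, ct_zero, hg.ct, ck.neg⟩
  have e11 : D1 (sh a) (sh a) t + f * g = 1 := by
    rw [D1_sh (a := a) (b := sh a), D0_sh' (a := a) (b := a), ← et]; abel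
  have e21 : D1 b (sh a) g = 0 := by rw [D1_sh' (a := b) (b := a), hg.ch.d]
  have e22 : D1 b b (-k) + g * f = 1 := by rw [D1_neg, ← ek]; abel
  have key := D1_blocks (a := sh a) (b := b) (a' := sh a) (b' := b) hf.ch.co hf.ch.co t 0 g (-k)
  rw [e11, e21, e22] at key
  generalize D1 (sh a) b 0 + f * -k + t * f = z at key
  have C : Ch (cn f hf.ch) (cn f hf.ch)
      (1 + 1 - D1 (cn f hf.ch) (cn f hf.ch) (fromBlocks t (0 : Mor a b) g (-k))) :=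
    (ch_one.add ch_one).sub (ch_D1 G0)
  have δ := ct_cn hf ha hb
  refine ⟨_, G0.mul' C.gd (add_zero _), (C0.mul hs ((Ct.add hs (m := 0) (n := 0) (ct_one hs)
    (ct_one hs)).sub hs (Ct.D1 (a := cn f hf.ch) (b := cn f hf.ch) hs δ δ C0))).mono hs
      (by omega), ?_⟩
  rw [← C.D1_mul G0 odd_neg_one', key]
  have e : ∀ z : Mor a b, fromBlocks (1 : Mor a a) z 0 (1 : Mor b b) *
      (1 + 1 - fromBlocks (1 : Mor a a) z 0 (1 : Mor b b)) = 1 := fun z => by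
    rw [← fromBlocks_one, fromBlocks_add, fromBlocks_sub, fromBlocks_multiply]
    simp
  exact (e z).symm

end Pool.Agent.Work.MP_9d1ffa_al.Dg
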