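import Pool.Agent.Work.MP_9d1ffa_al.Dg.DTop

/-! Control of morphisms over a set with scales of nearness. -/

namespace Pool.Agent.Work.MP_9d1ffa_al.Dg

variable {X K Y Z R : Type} [Group K] [MulAction K Y] [MulAction K Z] [Ring R]
  {ρ : K →* Equiv.Perm X}

/-- scales of nearness -/
structure Sca (K : Type) [Group K] {Y : Type} [MulAction K Y] (Nb : ℕ → Y → Y → Prop) : Prop where
  inv : ∀ n, Inv K (Nb n)
  rf : ∀ n y, Nb n y y
  tr : ∀ {m n x y z}, Nb m x y → Nb n y z → Nb (m + n) x z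

/-- depths `c r` and labels `σ r` for the colours `r` -/
structure Cov (K : Type) [Group K] {Y Z : Type} [MulAction K Y] [MulAction K Z]
    (Nb : ℕ → Y → Y → Prop) (c : ℕ → Y → ℕ) (σ : ℕ → Y → Z) : Prop where
  sca : Sca K Nb
  c_inv : ∀ r (g : K) y, c r (g • y) = c r y
  c_lip : ∀ {r n x y}, Nb n x y → c r x ≤ c r y + n ∧ c r y ≤ c r x + n
  σ_inv : ∀ r (g : K) y, σ r (g • y) = g • σ r y
  σ_loc : ∀ {r n x y}, Nb n x y → n < c r x → σ r x = σ r y

/-- the morphism moves positions by at most `n` -/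
abbrev Ct (Nb : ℕ → Y → Y → Prop) {I J : Ob X} (p : I.I → Y) (q : J.I → Y) (n : ℕ)
    (f : (OA R ρ).Hom I J) : Prop := On (rel p q (Nb n)) f

end Pool.Agent.Work.MP_9d1ffa_al.Dg
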