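import Pool.Agent.Work.MP_9d1ffa_al.Sq.Cv

/-! Cutting a complex along a subcomplex, and the swindle with supports. -/

namespace Pool.Agent.Work.MP_9d1ffa_al.Dg

variable {X K Z : Type} [Group K] [MulAction K Z] {Λ : DG} {ρ : K →* Equiv.Perm X}

/-- the support of `f` along the maps `s`, `t` -/
abbrev sp {R : Type} [Ring R] {I J : Ob X} (f : (OA R ρ).Hom I J) {ι κ : Type} (s : ι → I.I)
    (t : κ → J.I) : ι → κ → K → Prop := fun i j g => cf f (s i) (t j) g ≠ 0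

/-- the object on a subtype of the basis -/
@[reducible] def SqA_ob (a : Ob X) (P : a.I → Prop) : Ob X where
  I := {i // P i}
  t x := a.t x.1
  x x := a.x x.1
  fin n := (a.fin n).preimage Subtype.val_injective.injOn
  pos _ := a.pos _
  tot _ := a.tot _
  cpt := a.cpt.imp fun _ h _ => h _

theorem SqA_cf {R : Type} [Ring R] {I J : Ob X} {e : I.I ≃ J.I} {m : (OA R ρ).Hom I J}
    {m' : (OA R ρ).Hom J I} (hm : IsPm m e (fun _ => 1) fun _ => 1)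
    (hm' : IsPm m' e.symm (fun _ => 1⁻¹) fun _ => 1) (F : (OA R ρ).Hom J J) (i j : I.I) (g : K) :
    cf (m * (F * m')) i j g = cf F (e i) (e j) g := by
  have := hm'.mul_cf F (e i) (e j) g fun i' h _ => e.symm.injective h
  rw [e.symm_apply_apply] at this
  rw [hm.cf_mul, inv_one, one_mul, this]
  simp

theorem SqA_contr {b c : Tw Λ ρ} {f : Mor b c} (hf : Ch b c f) {p : Mor b b} {q : Mor b c}
    {w : Mor c b} {s : Mor c c} (G : Gd (-1) (cn f hf).deg (cn f hf).deg (fromBlocks p q w s))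
    (e : D1 (cn f hf) (cn f hf) (fromBlocks p q w s) = 1) :
    Ch c b w ∧ Gd (-1) b.deg b.deg p ∧ Gd (-1) c.deg c.deg (-s) ∧ f * w - 1 = D1 b b p ∧
      w * f - 1 = D1 c c (-s) := by
  obtain ⟨hp, -, hw, hs⟩ := gd_fromBlocks.1 G
  have key := D1_blocks (a := sh b) (b := c) (a' := sh b) (b' := c) hf.co hf.co p q w s
  obtain ⟨e11, -, e21, e22⟩ := fromBlocks_inj.1
    ((key.symm.trans e).trans (fromBlocks_one (I := b.ob) (J := c.ob)).symm)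
  rw [D1_sh (a := b) (b := sh b), D0_sh' (a := b) (b := b)] at e11
  rw [D1_sh' (a := c) (b := b)] at e21
  refine ⟨⟨hw.shift fun i j => by ring, e21⟩, hp.shift fun i j => by ring, hs.neg, ?_, ?_⟩
  · rw [← e11]; abel
  · rw [D1_neg, ← e22]; abel

theorem SqA_blk {R : Type} [Ring R] {B C J : Ob X} {e : (B + C).I ≃ J.I}
    {m : (OA R ρ).Hom (B + C) J} {m' : (OA R ρ).Hom J (B + C)}
    (hm : IsPm m e (fun _ => 1) fun _ => 1) (hm' : IsPm m' e.symm (fun _ => 1⁻¹) fun _ => 1)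
    (F : (OA R ρ).Hom J J) : ∃ p q r s, m * (F * m') = fromBlocks p q r s ∧
      (∀ i j g, cf p i j g = cf F (e (Sum.inl i)) (e (Sum.inl j)) g) ∧
      (∀ i j g, cf q i j g = cf F (e (Sum.inl i)) (e (Sum.inr j)) g) ∧
      (∀ i j g, cf r i j g = cf F (e (Sum.inr i)) (e (Sum.inl j)) g) ∧
      ∀ i j g, cf s i j g = cf F (e (Sum.inr i)) (e (Sum.inr j)) g := by
  obtain ⟨p, q, r, s, h⟩ := exists_blocks (m * (F * m'))
  have k := SqA_cf hm hm' F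
  rw [h] at k
  exact ⟨p, q, r, s, h, fun i j g => (cf_blocks₁₁ g p q r s i j).symm.trans (k _ _ g),
    fun i j g => (cf_blocks₁₂ g p q r s i j).symm.trans (k _ _ g),
    fun i j g => (cf_blocks₂₁ g p q r s i j).symm.trans (k _ _ g),
    fun i j g => (cf_blocks₂₂ g p q r s i j).symm.trans (k _ _ g)⟩

theorem SqA_cone {a b c : Tw Λ ρ} {f : Mor b c} (hf : Ch b c f) {e : (b.ob + c.ob).I ≃ a.ob.I}
    {m : Mor (cn f hf) a} {m' : Mor a (cn f hf)} (hm : IsPm m e (fun _ => 1) fun _ => 1)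
    (hm' : IsPm m' e.symm (fun _ => 1⁻¹) fun _ => 1) (e1 : m * m' = 1) (e2 : m' * m = 1)
    (hd : ∀ i, a.deg (e i) = (cn f hf).deg i) (hδ : m * (a.δ * m') = (cn f hf).δ) :
    SE a (cn f hf) ∧ ∀ Γ : Mor a a, Gd (-1) a.deg a.deg Γ → D1 a a Γ = 1 →
      ∃ (w : Mor c b) (p : Mor b b) (k : Mor c c), Ch c b w ∧ Gd (-1) b.deg b.deg p ∧
        Gd (-1) c.deg c.deg k ∧ f * w - 1 = D1 b b p ∧ w * f - 1 = D1 c c k ∧
        On (sp Γ (fun i => e (Sum.inr i)) fun i => e (Sum.inl i)) w ∧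
        On (sp Γ (fun i => e (Sum.inl i)) fun i => e (Sum.inl i)) p ∧
        On (sp Γ (fun i => e (Sum.inr i)) fun i => e (Sum.inr i)) k := by
  have k1 : (cn f hf).δ * m = m * a.δ := by
    rw [← hδ, Hm.mul_assoc, Hm.mul_assoc, e2, Hm.mul_one]
  have k2 : a.δ * m' = m' * (cn f hf).δ := by rw [← hδ, ← Hm.mul_assoc, e2, Hm.one_mul]
  have cm : Ch (cn f hf) a m := hm.ch hd k1
  have cm' : Ch a (cn f hf) m' :=
    hm'.ch (fun i => (hd _).symm.trans (congrArg a.deg (e.apply_symm_apply i))) k2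
  refine ⟨(si_pm hm hd k1).se.symm, fun Γ G hΓ => ?_⟩
  have G' : Gd (-1) (cn f hf).deg (cn f hf).deg (m * (Γ * m')) :=
    cm.gd.mul' (G.mul' cm'.gd (add_zero _)) (zero_add _)
  have hc : D1 (cn f hf) (cn f hf) (m * (Γ * m')) = 1 := by
    rw [← cm.mul_D1, ← cm'.D1_mul G odd_neg_one', hΓ, Hm.one_mul, e1]
  obtain ⟨p, q, w, s, h, d1, -, d3, d4⟩ := SqA_blk (B := b.ob) (C := c.ob) hm hm' Γ
  obtain ⟨h1, h2, h3, h4, h5⟩ := SqA_contr hf (h ▸ G') (h ▸ hc)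
  exact ⟨w, p, -s, h1, h2, h3, h4, h5, fun i j g k z => k ((d3 i j g).trans z),
    fun i j g k z => k ((d1 i j g).trans z), On.neg fun i j g k z => k ((d4 i j g).trans z)⟩

/-- A complex is the cone of a map from the quotient by a subcomplex to the subcomplex. -/
theorem exists_cut (a : Tw Λ ρ) (A : a.ob.I → Prop)
    (hA : ∀ i j g, A i → cf a.δ i j g ≠ 0 → A j) :
    ∃ (b c : Tw Λ ρ) (f : Mor b c) (hf : Ch b c f) (sb : b.ob.I → a.ob.I) (sc : c.ob.I → a.ob.I),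
      (∀ i, ¬ A (sb i)) ∧ (∀ i, A (sc i)) ∧ SE a (cn f hf) ∧ On (sp a.δ sb sb) b.δ ∧
      On (sp a.δ sc sc) c.δ ∧ On (sp a.δ sb sc) f ∧
      ∀ Γ : Mor a a, Gd (-1) a.deg a.deg Γ → D1 a a Γ = 1 →
        ∃ (w : Mor c b) (p : Mor b b) (k : Mor c c), Ch c b w ∧ Gd (-1) b.deg b.deg p ∧
          Gd (-1) c.deg c.deg k ∧ f * w - 1 = D1 b b p ∧ w * f - 1 = D1 c c k ∧
          On (sp Γ sc sb) w ∧ On (sp Γ sb sb) p ∧ On (sp Γ sc sc) k := by
  classical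
  let B := SqA_ob a.ob fun i => ¬ A i
  let C := SqA_ob a.ob A
  let e : (B + C).I ≃ a.ob.I := (Equiv.sumComm _ _).trans (Equiv.sumCompl A)
  obtain ⟨m, hm⟩ := exists_pm Λ.A ρ (I := B + C) e (fun _ => 1) (by rintro (i | i) <;> rfl)
    (by rintro (i | i) <;> rfl)
  obtain ⟨m', hm', e1, e2⟩ := hm.inv
  obtain ⟨β, f, δ₃, γ, hδ, c1, c2, c3, c4⟩ := SqA_blk hm hm' a.δ
  obtain ⟨β, rfl⟩ : ∃ β', β = -β' := ⟨-β, (neg_neg _).symm⟩
  obtain rfl : δ₃ = 0 := hom_ext fun i j g =>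
    (c3 i j g).trans (of_not_not fun k => j.2 (hA _ _ g i.2 k))
  have hd : ∀ i, a.deg (e i) =
      Sum.elim (fun i : B.I => a.deg i.1 + 1 - 1) (fun i : C.I => a.deg i.1) i := by
    rintro (i | i)
    exacts [(add_sub_cancel_right _ _).symm, rfl]
  have mc := DF_mc a.gd a.mc (hm.gd fun i => (hd i).trans (zero_add _).symm) (hm'.pd _)
    (hm.pd _) e2
  rw [hδ, pd_fromBlocks, fromBlocks_multiply, fromBlocks_add, pd_shift, pd_shift] at mc
  obtain ⟨m1, m2, -, m4⟩ := fromBlocks_inj.1 (mc.trans fromBlocks_zero.symm)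
  obtain ⟨l, hl, lo⟩ := a.lev
  obtain ⟨N, hN⟩ := bd_iff.1 hl
  have o1 : On (sp a.δ Subtype.val Subtype.val) β := fun i j g k z =>
    k (neg_eq_zero.1 ((c1 i j g).trans z))
  have o2 : On (sp a.δ Subtype.val Subtype.val) f := fun i j g k z => k ((c2 i j g).trans z)
  have o4 : On (sp a.δ Subtype.val Subtype.val) γ := fun i j g k z => k ((c4 i j g).trans z)
  have g1 : Gd (I := B) (J := B) 1 (fun i => a.deg i.1 + 1) (fun i => a.deg i.1 + 1) β :=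
    fun i j g => by
      rw [show 1 + (a.deg i.1 + 1) - (a.deg j.1 + 1) = 1 + a.deg i.1 - a.deg j.1 by ring,
        ← neg_mem_iff, ← cf_neg, c1]
      exact a.gd _ _ g
  let b : Tw Λ ρ := ⟨B, fun i => a.deg i.1 + 1, β, g1, by simpa [pd_neg] using m1,
    fun i => l i.1, bd_iff.2 ⟨N, fun _ => hN _⟩, fun i j g k => lo _ _ g (o1 i j g k)⟩
  let c : Tw Λ ρ := ⟨C, fun i => a.deg i.1, γ, fun i j g => (c4 i j g).symm ▸ a.gd _ _ g,
    by simpa using m4, fun i => l i.1, bd_iff.2 ⟨N, fun _ => hN _⟩,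
    fun i j g k => lo _ _ g (o4 i j g k)⟩
  have hf : Ch b c f := by
    refine ⟨fun i j g => ?_, ?_⟩
    · change _ ∈ Λ.gr (0 + (a.deg i.1 + 1) - a.deg j.1)
      rw [show 0 + (a.deg i.1 + 1) - a.deg j.1 = 1 + a.deg i.1 - a.deg j.1 by ring, c2]
      exact a.gd _ _ g
    · change pd (I := B) (fun i => a.deg i.1 + 1) f + β * f - f * γ = 0
      rw [← neg_eq_zero, ← m2, Hm.neg_mul]
      abel
  obtain ⟨k1, k2⟩ := SqA_cone (a := a) hf hm hm' e1 e2 hd hδ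
  exact ⟨b, c, f, hf, Subtype.val, Subtype.val, fun i => i.2, fun i => i.2, k1, o1, o4, o2, k2⟩

/-- A chain map with values in a subcomplex factors through it. -/
theorem exists_sub {b c : Tw Λ ρ} (D : c.ob.I → Prop)
    (hD : ∀ i j g, D i → cf c.δ i j g ≠ 0 → D j) {f : Mor b c} (hf : Ch b c f)
    (h : ∀ i j g, cf f i j g ≠ 0 → D j) :
    ∃ (d : Tw Λ ρ) (s : d.ob.I → c.ob.I) (u : Mor d c) (f' : Mor b d), (∀ i, D (s i)) ∧
      Ch d c u ∧ Ch b d f' ∧ f' * u = f ∧ On (fun i j g => s i = j ∧ 1 = g) u ∧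
      On (sp c.δ s s) d.δ ∧ On (sp f id s) f' := by
  let H : HD c Unit := ⟨{j // D j}, Subtype.val, fun _ => (), Set.toFinite _,
    fun x y e _ => Subtype.ext e, fun x j g e => ⟨⟨j, hD _ j g x.2 e⟩, rfl, rfl⟩⟩
  have cov : ∀ i j g, cf f i j g ≠ 0 → ∃ y, H.s y = j ∧ () = g • H.lab y :=
    fun i j g e => ⟨⟨j, h i j g e⟩, rfl, rfl⟩
  exact ⟨H.tw, H.s, H.inc, H.lf (fun _ => ()) f, fun i => i.2, H.ch_inc,
    H.lift ⟨Set.toFinite _, fun _ _ _ _ => rfl⟩ hf cov, H.lf_mul_inc cov, H.isPm_inc.on,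
    fun _ _ _ e => H.δ_ne e, fun _ _ _ e => H.lf_ne e⟩

/-- The swindle with supports. -/
theorem exists_sw2 {π : Z → X} (hπ : ∀ (g : K) z, π (g • z) = ρ g (π z)) {a : Tw Λ ρ}
    {p : a.ob.I → Z} (ha : Lc a p) :
    ∃ (w : Sw a p) (τ : w.s.ob.I → a.ob.I) (u' : Mor (a + w.s) w.s), (∀ i, w.ps i = p (τ i)) ∧
      Ch (a + w.s) w.s u' ∧ w.u * u' = 1 ∧ u' * w.u = 1 ∧
      On (J := a.ob + w.s.ob) (fun i j g => τ i = Sum.elim id τ j ∧ g = 1) w.u ∧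
      On (I := a.ob + w.s.ob) (fun i j g => Sum.elim id τ i = τ j ∧ g = 1) u' ∧
      ∀ f, On (sp f τ τ) (w.S f) := by
  have h : (Set.range fun i => π (p i)).Finite := (ha.fin.image π).subset (by
    rintro _ ⟨i, rfl⟩
    exact ⟨_, ⟨i, rfl⟩, rfl⟩)
  have hu := isPm_pm (R := Λ.A) (s := fun _ => 1) (cts_swE ρ a.ob _ h)
  obtain ⟨u', hu', e1, e2⟩ := IsPm.inv (I := swP a.ob _ h) (J := a.ob + swP a.ob _ h)
    (e := Equiv.ofBijective swE swE_bij) hu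
  have si : SI (DW1_T hπ h ha.loc) (a + DW1_T hπ h ha.loc) _ :=
    si_pm (e := Equiv.ofBijective swE swE_bij) hu (by rintro ⟨i, _ | n⟩ <;> rfl)
      (DW1_nat hπ h hu ha.loc).symm
  obtain ⟨v, hv, e3, -⟩ := si.inv
  obtain rfl : u' = v := ((Hm.mul_one u').symm.trans (congrArg (u' * ·) e3.symm)).trans
    ((Hm.mul_assoc _ _ _).symm.trans ((congrArg (· * v) e2).trans (Hm.one_mul v)))
  refine ⟨⟨DW1_T hπ h ha.loc, fun i => p i.1, ⟨ha.fin.subset ?_, DW1_on hπ h _⟩, _, si,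
    hu.on.mono ?_, DW1_A hπ h, DW1_one hπ h, rfl, DW1_pd hπ h _, fun _ _ => DW1_gd hπ h,
    fun f _ => DW1_on hπ h f, fun _ _ => DW1_hom hπ h, fun _ => DW1_nat hπ h hu⟩, Prod.fst, u',
    fun _ => rfl, hv, e1, e2, hu.on.mono ?_, hu'.on.mono fun i j g k => ?_,
    fun f i j g e => (DW1_ne hπ h e).2.2⟩
  · rintro _ ⟨i, rfl⟩
    exact ⟨i.1, rfl⟩
  · rintro ⟨i, _ | n⟩ _ _ ⟨rfl, rfl⟩ <;> exact (one_smul K _).symm
  · rintro ⟨i, _ | n⟩ _ _ ⟨rfl, rfl⟩ <;> exact ⟨rfl, rfl⟩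
  · obtain rfl := (Equiv.symm_apply_eq _).1 k.1
    refine ⟨?_, k.2.symm.trans inv_one⟩
    obtain ⟨j, _ | n⟩ := j <;> rfl

end Pool.Agent.Work.MP_9d1ffa_al.Dg
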