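import Pool.Agent.Work.MP_9d1ffa_al.Sq.Cc

/-! The algebra of the squeezing step. -/

namespace Pool.Agent.Work.MP_9d1ffa_al.Dg

section

variable {O : Type 1} [Add O] {𝒞 : ACat O} {I J : O}

/-- the first map of the splitting -/
def spA (u : 𝒞.Hom J (I + J)) (P : 𝒞.Hom J J) : 𝒞.Hom J (I + J) := P * u + fromCols 0 (1 - P)

/-- the second map of the splitting -/
def spB (u' : 𝒞.Hom (I + J) J) (P : 𝒞.Hom J J) : 𝒞.Hom (I + J) J := u' * P + fromRows 0 (1 - P)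

/-- As `split_alg`, keeping the error terms. -/
theorem split_err {u : 𝒞.Hom J (I + J)} {u' : 𝒞.Hom (I + J) J} (h1 : u * u' = 1) (h2 : u' * u = 1)
    {E : 𝒞.Hom I I} {P : 𝒞.Hom J J} (n : u * fromBlocks E 0 0 P = P * u) :
    spA u P * spB u' P - 1 = (P * P - P) + (P * P - P) - u * fromRows 0 (P * P - P) -
      fromCols 0 (P * P - P) * u' ∧
    spB u' P * spA u P - fromBlocks E 0 0 1 = fromBlocks (E * E - E) 0 0 ((P * P - P) + (P * P - P)) -
      u' * fromCols 0 (P * P - P) - fromRows 0 (P * P - P) * u := by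
  have n1 : P * u = u * fromBlocks E 0 0 P := n.symm
  have n2 : u' * P = fromBlocks E 0 0 P * u' := by
    rw [← Hm.mul_one (u' * P), ← h1, ← Hm.mul_assoc, Hm.mul_assoc _ P, n1, ← Hm.mul_assoc, h2,
      Hm.one_mul]
  have p1 : P * (1 - P) = -(P * P - P) := by rw [Hm.mul_sub, Hm.mul_one, neg_sub]
  have p2 : (1 - P) * P = -(P * P - P) := by rw [Hm.sub_mul, Hm.one_mul, neg_sub]
  have p3 : (1 - P) * (1 - P) = 1 - P + (P * P - P) := by
    rw [Hm.sub_mul, Hm.one_mul, p1, sub_neg_eq_add]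
  have r : fromRows (0 : 𝒞.Hom I J) (-(P * P - P)) = -fromRows 0 (P * P - P) := by
    rw [fromRows_neg, neg_zero]
  have c : fromCols (0 : 𝒞.Hom J I) (-(P * P - P)) = -fromCols 0 (P * P - P) := by
    rw [fromCols_neg, neg_zero]
  unfold spA spB
  constructor
  · have a1 : P * u * (u' * P) = P * P := by rw [Hm.mul_assoc, ← Hm.mul_assoc u, h1, Hm.one_mul]
    have a2 : P * u * fromRows (0 : 𝒞.Hom I J) (1 - P) = -(u * fromRows 0 (P * P - P)) := by
      rw [n1, Hm.mul_assoc, fromBlocks_mul_fromRows, p1, ← Hm.mul_neg, ← r]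
      simp only [Hm.mul_zero, Hm.zero_mul, zero_add]
    have a3 : fromCols (0 : 𝒞.Hom J I) (1 - P) * (u' * P) = -(fromCols 0 (P * P - P) * u') := by
      rw [n2, ← Hm.mul_assoc, fromCols_mul_fromBlocks, p2, ← Hm.neg_mul, ← c]
      simp only [Hm.mul_zero, Hm.zero_mul, zero_add]
    rw [Hm.add_mul, Hm.mul_add, Hm.mul_add, a1, a2, a3, fromCols_mul_fromRows, p3, Hm.mul_zero]
    abel
  · have a1 : u' * P * (P * u) = fromBlocks E 0 0 P * fromBlocks E 0 0 P := by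
      rw [n2, n1, Hm.mul_assoc, ← Hm.mul_assoc u', h2, Hm.one_mul]
    have a2 : u' * P * fromCols (0 : 𝒞.Hom J I) (1 - P) = -(u' * fromCols 0 (P * P - P)) := by
      rw [Hm.mul_assoc, mul_fromCols P, p1, Hm.mul_zero, c, Hm.mul_neg]
    have a3 : fromRows (0 : 𝒞.Hom I J) (1 - P) * (P * u) = -(fromRows 0 (P * P - P) * u) := by
      rw [← Hm.mul_assoc, fromRows_mul _ _ P, p2, Hm.zero_mul, r, Hm.neg_mul]
    have a4 : fromBlocks E 0 0 P * fromBlocks E 0 0 P +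
        fromRows (0 : 𝒞.Hom I J) (1 - P) * fromCols 0 (1 - P) - fromBlocks E 0 0 1 =
        fromBlocks (E * E - E) 0 0 ((P * P - P) + (P * P - P)) := by
      rw [fromRows_mul_fromCols, p3, fromBlocks_multiply, fromBlocks_add, fromBlocks_sub]
      simp only [Hm.mul_zero, Hm.zero_mul, zero_add, add_zero, sub_zero]
      congr 1
      abel
    rw [Hm.add_mul, Hm.mul_add, Hm.mul_add, a1, a2, a3, ← a4]
    abel

theorem SqB_one {L : O} (f : 𝒞.Hom L I) (v : 𝒞.Hom I L) (A : 𝒞.Hom J (I + J))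
    (B : 𝒞.Hom (I + J) J) :
    fromBlocks f 0 0 (1 : 𝒞.Hom J J) * B * (A * fromBlocks v 0 0 (1 : 𝒞.Hom J J)) - 1 =
      fromBlocks f 0 0 (1 : 𝒞.Hom J J) * (B * A - fromBlocks (v * f) 0 0 1) *
        fromBlocks v 0 0 (1 : 𝒞.Hom J J) +
        fromBlocks ((f * v - 1) * (f * v) + (f * v - 1)) 0 0 (0 : 𝒞.Hom J J) := by
  have e : fromBlocks ((f * v - 1) * (f * v) + (f * v - 1)) 0 0 (0 : 𝒞.Hom J J) =
      fromBlocks f 0 0 (1 : 𝒞.Hom J J) * fromBlocks (v * f) 0 0 (1 : 𝒞.Hom J J) *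
        fromBlocks v 0 0 (1 : 𝒞.Hom J J) - 1 := by
    rw [fromBlocks_multiply, fromBlocks_multiply, ← fromBlocks_one, fromBlocks_sub]
    simp only [Hm.mul_zero, Hm.zero_mul, zero_add, add_zero, Hm.mul_one, Hm.one_mul, sub_self,
      Hm.sub_mul, Hm.mul_assoc, sub_add_sub_cancel]
  rw [e, Hm.mul_sub, Hm.sub_mul]
  simp only [Hm.mul_assoc]
  abel

theorem SqB_two {L : O} (f : 𝒞.Hom L I) (v : 𝒞.Hom I L) (A : 𝒞.Hom J (I + J))
    (B : 𝒞.Hom (I + J) J) :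
    A * fromBlocks v 0 0 (1 : 𝒞.Hom J J) * (fromBlocks f 0 0 (1 : 𝒞.Hom J J) * B) - 1 =
      (A * B - 1) * (A * B) + (A * B - 1) - A * (B * A - fromBlocks (v * f) 0 0 1) * B := by
  have e : fromBlocks (v * f) 0 0 (1 : 𝒞.Hom J J) =
      fromBlocks v 0 0 (1 : 𝒞.Hom J J) * fromBlocks f 0 0 (1 : 𝒞.Hom J J) := by
    rw [fromBlocks_multiply]
    simp only [Hm.mul_zero, Hm.zero_mul, zero_add, add_zero, Hm.mul_one]
  rw [e]
  simp only [Hm.mul_sub, Hm.sub_mul, Hm.mul_assoc, Hm.one_mul]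
  abel

theorem SqB_three {L M : O} (f : 𝒞.Hom L I) (i : 𝒞.Hom I M) (w : 𝒞.Hom M L) :
    i * w * f * (i * w * f) - i * w * f = i * (w * (f * i) - 1) * (w * f) := by
  simp only [Hm.mul_sub, Hm.sub_mul, Hm.mul_assoc, Hm.mul_one]

end

/-- The squeezed map has a cone with a controlled contraction. -/
theorem sq_ctl : ∃ m : ℕ, 0 < m ∧ ∀ {X K Y : Type} [Group K] [MulAction K Y] {Λ : DG}
    {ρ : K →* Equiv.Perm X} {Nb : ℕ → Y → Y → Prop} (_ : Sca K Nb) {b c d s : Tw Λ ρ}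
    {yb : b.ob.I → Y} {yc : c.ob.I → Y} {yd : d.ob.I → Y} {ys : s.ob.I → Y} {f : Mor b d}
    {i : Mor d c} {w : Mor c b} {u : Mor s (d + s)} {u' : Mor (d + s) s} {P : Mor s s},
    Ct Nb yb yb 1 b.δ → Ct Nb ys ys 1 s.δ → Cc Nb yb yd 1 f → Cc Nb yd yc 0 i → Cc Nb yc yb 1 w →
    Cc Nb (b := d + s) ys (Sum.elim yd ys) 0 u → Cc Nb (a := d + s) (Sum.elim yd ys) ys 0 u' →
    Cc Nb ys ys 2 P → Hn Nb yb yb 1 (f * i * w - 1) → Hn Nb yc yc 1 (w * (f * i) - 1) →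
    Hn Nb ys ys 3 (P * P - P) → u * u' = 1 → u' * u = 1 →
    u * fromBlocks (i * w * f) 0 0 P = P * u →
    ∃ hF : Ch (b + s) s (fromBlocks f 0 0 1 * spB u' P),
      Ct Nb (I := (b + s).ob + s.ob) (J := (b + s).ob + s.ob) (Sum.elim (Sum.elim yb ys) ys)
        (Sum.elim (Sum.elim yb ys) ys) m (cn _ hF).δ ∧
      Hn Nb (a := cn _ hF) (b := cn _ hF) (Sum.elim (Sum.elim yb ys) ys)
        (Sum.elim (Sum.elim yb ys) ys) m 1 := by
  refine ⟨3 * 52, by norm_num, ?_⟩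
  intro X K Y _ _ Λ ρ Nb hs b c d s yb yc yd ys f i w u u' P δb δs cf ci cw cu cu' cP e1 e2 e3 h1
    h2 n
  obtain ⟨k1, k2⟩ := split_err h1 h2 n
  have c1 : Cc Nb ys ys 2 (1 - P) := (cc_one (n := 0) hs).sub hs cP
  have cA : Cc Nb (b := d + s) ys (Sum.elim yd ys) 4 (spA u P) :=
    (cP.mul hs cu).add hs (cc_zero.cols c1)
  have cB : Cc Nb (a := d + s) (Sum.elim yd ys) ys 4 (spB u' P) :=
    (cu'.mul hs cP).add hs (cc_zero.rows c1)
  have cv : Cc Nb yd yb 1 (i * w) := ci.mul hs cw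
  have dF : Cc Nb (a := b + s) (b := d + s) (Sum.elim yb ys) (Sum.elim yd ys) 1
      (fromBlocks f 0 0 1) := cf.diag (cc_one hs)
  have dG : Cc Nb (a := d + s) (b := b + s) (Sum.elim yd ys) (Sum.elim yb ys) 1
      (fromBlocks (i * w) 0 0 1) := cv.diag (cc_one hs)
  have qr : Hn Nb (a := d + s) (Sum.elim yd ys) ys 3 (fromRows 0 (P * P - P)) := hn_zero.rows e3
  have qc : Hn Nb (b := d + s) ys (Sum.elim yd ys) 3 (fromCols 0 (P * P - P)) := hn_zero.cols e3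
  have hAB : Hn Nb ys ys 12 (spA u P * spB u' P - 1) := by
    rw [k1]
    exact ((e3.add hs e3).sub hs (cu.lmul hs qr)).sub hs (qc.rmul hs cu')
  have he : Hn Nb yd yd 6 (i * w * f * (i * w * f) - i * w * f) := by
    rw [SqB_three]
    exact ((ci.lmul hs e2).rmul hs (cw.mul hs cf)).mono hs (by norm_num)
  have hBA : Hn Nb (a := d + s) (b := d + s) (Sum.elim yd ys) (Sum.elim yd ys) 12
      (spB u' P * spA u P - fromBlocks (i * w * f) 0 0 1) := by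
    rw [k2]
    exact ((he.diag (e3.add hs e3)).sub hs (cu'.lmul hs qc)).sub hs (qr.rmul hs cu)
  rw [Hm.mul_assoc] at e1
  have cF := (dF.mul hs cB).mono hs (n := 52) (by norm_num)
  have cG := (cA.mul hs dG).mono hs (n := 52) (by norm_num)
  have δ1 : Ct Nb (I := (b + s).ob) (J := (b + s).ob) (Sum.elim yb ys) (Sum.elim yb ys) 52
      (b + s).δ := (ct_blocks.2 ⟨δb, ct_zero, ct_zero, δs⟩).mono hs (by norm_num)
  have δ2 := δs.mono hs (n := 52) (by norm_num)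
  refine ⟨cF.ch, (ct_cn cF δ1 δ2).mono hs (by norm_num), hn_cn hs cF cG δ1 δ2 ?_ ?_⟩
  · have k := ((dF.lmul hs hBA).rmul hs dG).add hs
      (((e1.rmul hs (cf.mul hs cv)).add hs e1).diag (hn_zero (a := s) (b := s) (p := ys) (q := ys)))
    exact (SqB_one f (i * w) (spA u P) (spB u' P)).symm ▸ k.mono hs (by norm_num)
  · have k := ((hAB.rmul hs (cA.mul hs cB)).add hs hAB).sub hs ((cA.lmul hs hBA).rmul hs cB)
    exact (SqB_two f (i * w) (spA u P) (spB u' P)).symm ▸ k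

variable {X K Z : Type} [Group K] [MulAction K Z] {Λ : DG} {ρ : K →* Equiv.Perm X}

/-- The torsion of the squeezed map is the torsion of `f * i`. -/
theorem sq_tz {π : Z → X} (hπ : ∀ (g : K) z, π (g • z) = ρ g (π z)) {b c d s : Tw Λ ρ}
    {pc : c.ob.I → Z} {pd : d.ob.I → Z} {ps : s.ob.I → Z} (lc : Lc c pc) (ls : Lc s ps)
    {f : Mor b d} {i : Mor d c} {w : Mor c b} {u : Mor s (d + s)} {u' : Mor (d + s) s}
    {P : Mor s s} (hf : Ch b d f) (hi : Ch d c i) (hw : Ch c b w) (hu : Ch s (d + s) u)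
    (hu' : Ch (d + s) s u') (hP : Ch s s P) (e1 : Nh b b (f * i * w - 1))
    (e2 : Nh c c (w * (f * i) - 1)) (e3 : Nh s s (P * P - P)) (h1 : u * u' = 1) (h2 : u' * u = 1)
    (n : u * fromBlocks (i * w * f) 0 0 P = P * u) (o1 : On (rel pc pd Eq) (w * f))
    (o2 : On (I := d.ob + s.ob) (rel (Sum.elim pd ps) ps Eq) u') (o3 : On (rel ps ps Eq) P)
    (hF : Ch (b + s) s (fromBlocks f 0 0 1 * spB u' P)) (h : Sim (cn _ hF)) :
    Sim (cn (f * i) (hf.mul hi)) := by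
  obtain ⟨f', rf⟩ := hf.exists_rp
  obtain ⟨i', ri⟩ := hi.exists_rp
  obtain ⟨w', rw'⟩ := hw.exists_rp
  obtain ⟨v, rv⟩ := hu.exists_rp
  obtain ⟨v', rv'⟩ := hu'.exists_rp
  obtain ⟨Q, rQ⟩ := hP.exists_rp
  have g1 : f' * i' * w' = 1 := (((rf.mul ri).mul rw').eq_iff rp_one).2 e1
  have g2 : w' * (f' * i') = 1 := ((rw'.mul (rf.mul ri)).eq_iff rp_one).2 e2
  have g3 : Q * Q = Q := ((rQ.mul rQ).eq_iff rQ).2 e3
  have g4 : v * v' = 1 := (rv.mul rv').uniq (rp_one.congr h1.symm)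
  have g5 : v' * v = 1 := (rv'.mul rv).uniq (rp_one.congr h2.symm)
  have g6 : v * fromBlocks (i' * w' * f') 0 0 Q = Q * v :=
    (rv.mul (Rp.fromBlocks ((ri.mul rw').mul rf) rp_zero rp_zero rQ)).uniq
      ((rQ.mul rv).congr n.symm)
  have g7 : i' * w' * f' * (i' * w' * f') = i' * w' * f' := by
    rw [← sub_eq_zero, SqB_three, g2, sub_self, Hm.mul_zero, Hm.zero_mul]
  obtain ⟨k1, k2⟩ := split_alg g4 g5 g7 g3 g6
  have oQ : HOn ps ps Eq Q := ⟨_, rQ, o3⟩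
  have ov : HOn (a := d + s) (Sum.elim pd ps) ps Eq v' := ⟨_, rv', o2⟩
  have ow : HOn pc pd Eq (w' * f') := ⟨_, rw'.mul rf, o1⟩
  have oB : HOn (a := d + s) (Sum.elim pd ps) ps Eq (v' * Q + fromRows 0 (1 - Q)) :=
    (ov.mul oQ inv_eq fun _ _ _ => Eq.trans).add (hOn_zero.fromRows (hOn_one.sub oQ))
  have rB : Rp (v' * Q + fromRows 0 (1 - Q)) (spB u' P) :=
    (rv'.mul rQ).add (rp_zero.fromRows (rp_one.sub rQ))
  generalize Q * v + fromCols 0 (1 - Q) = A at k1 k2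
  generalize v' * Q + fromRows 0 (1 - Q) = B at k1 k2 oB rB
  have t : Tz (fromBlocks (w' * f') 0 0 (1 : Hom s s) * B) := by
    refine tz_local hπ (lc.sum ls) ls (y := A * fromBlocks i' 0 0 1)
      ((ow.fromBlocks hOn_zero hOn_zero hOn_one).mul oB inv_eq fun _ _ _ => Eq.trans) ?_ ?_
    · rw [Hm.mul_assoc, ← Hm.mul_assoc B, k2, fromBlocks_multiply, fromBlocks_multiply,
        ← fromBlocks_one]
      simp only [Hm.mul_zero, Hm.zero_mul, zero_add, add_zero, Hm.mul_one, Hm.mul_assoc]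
      rw [← Hm.mul_assoc f', ← Hm.mul_assoc w', g2, Hm.one_mul]
    · have e : fromBlocks i' 0 0 (1 : Hom s s) * fromBlocks (w' * f') 0 0 (1 : Hom s s) =
          B * A := by
        rw [k2, fromBlocks_multiply]
        simp only [Hm.mul_zero, Hm.zero_mul, zero_add, add_zero, Hm.mul_one, Hm.mul_assoc]
      rw [Hm.mul_assoc, ← Hm.mul_assoc _ _ B, e, Hm.mul_assoc, k1, Hm.mul_one, k1]
  have e : fromBlocks f' 0 0 (1 : Hom s s) * B =
      fromBlocks (f' * i') 0 0 (1 : Hom s s) * (fromBlocks (w' * f') 0 0 (1 : Hom s s) * B) := by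
    rw [← Hm.mul_assoc, fromBlocks_multiply, ← Hm.mul_assoc _ w', g1]
    simp only [Hm.mul_zero, Hm.zero_mul, zero_add, add_zero, Hm.mul_one, Hm.one_mul]
  have t' := (tz_iff ((Rp.fromBlocks rf rp_zero rp_zero rp_one).mul rB)).2 h
  rw [e, t.mul_right, tz_block] at t'
  exact (tz_iff (rf.mul ri)).1 t'

end Pool.Agent.Work.MP_9d1ffa_al.Dg
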