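import Pool.Agent.Work.MP_9d1ffa_al.Sq.SqA
import Pool.Agent.Work.MP_9d1ffa_al.Sq.SqB

/-! Squeezing: controlled contractible complexes over a coloured space have trivial torsion. -/

namespace Pool.Agent.Work.MP_9d1ffa_al.Dg

theorem Cov.scale {K Y Z : Type} [Group K] [MulAction K Y] [MulAction K Z]
    {Nb : ℕ → Y → Y → Prop} {c : ℕ → Y → ℕ} {σ : ℕ → Y → Z} (h : Cov K Nb c σ) {m : ℕ}
    (hm : 0 < m) : Cov K (fun k => Nb (k * m)) (fun r y => c r y / m) σ where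
  sca := ⟨fun _ => h.sca.inv _, fun _ => h.sca.rf _, fun x y => by
    rw [Nat.add_mul]; exact h.sca.tr x y⟩
  c_inv r g y := by rw [h.c_inv]
  c_lip e := by
    rw [← Nat.add_mul_div_right _ _ hm, ← Nat.add_mul_div_right _ _ hm]
    exact ⟨Nat.div_le_div_right (h.c_lip e).1, Nat.div_le_div_right (h.c_lip e).2⟩
  σ_inv := h.σ_inv
  σ_loc e k := h.σ_loc e (lt_of_lt_of_le (Nat.mul_lt_mul_of_pos_right (Nat.lt_succ_self _) hm)
    ((Nat.le_div_iff_mul_le hm).1 k))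

/-- the statement for `r` colours, `L` levels, control `n` and depth `M` -/
def Sqz (r L n M : ℕ) : Prop :=
  ∀ {X K Y Z : Type} [Group K] [MulAction K Y] [MulAction K Z] {Λ : DG} {ρ : K →* Equiv.Perm X}
    {Nb : ℕ → Y → Y → Prop} {c : ℕ → Y → ℕ} {σ : ℕ → Y → Z} (_ : Cov K Nb c σ) {π : Z → X}
    (_ : ∀ (g : K) z, π (g • z) = ρ g (π z)) (a : Tw Λ ρ) (y : a.ob.I → Y) (l : a.ob.I → ℕ),
    (Set.range y).Finite → (∀ i, l i < L) → Lo l l a.δ → Ct Nb y y n a.δ → Hn Nb y y n (1 : Mor a a) →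
    (∀ i, ∃ s < r, M ≤ c s (y i)) → Sim a

theorem Sqz.scale {r L M m : ℕ} (h : Sqz r L 1 M) (hm : 0 < m) : Sqz r L m (M * m) := by
  intro X K Y Z _ _ _ Λ ρ Nb c σ hc π hπ a y l h1 h2 h3 h4 h5 h6
  refine h (hc.scale hm) hπ a y l h1 h2 h3 ?_ ?_ fun i => (h6 i).imp fun s e =>
    ⟨e.1, (Nat.le_div_iff_mul_le hm).2 e.2⟩
  · exact (h4.mono hc.sca (one_mul m).ge :)
  · exact (h5.mono hc.sca (one_mul m).ge :)

theorem sqz_zero (L n M : ℕ) : Sqz 0 L n M := by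
  intro X K Y Z _ _ _ Λ ρ Nb c σ hc π hπ a y l h1 _ _ _ h5 h6
  obtain ⟨Γ, g, -, e⟩ := h5
  exact Lc.sim hπ (p := fun i => σ 0 (y i)) ⟨fin_comp h1 _, fun i =>
    (h6 i).elim fun _ e => absurd e.1 (Nat.not_lt_zero _)⟩ ⟨Γ, g, e.symm⟩

section

variable {X K Y Z R : Type} [Group K] [MulAction K Y] [MulAction K Z] [Ring R]
  {ρ : K →* Equiv.Perm X} {Nb : ℕ → Y → Y → Prop} {c : ℕ → Y → ℕ} {σ : ℕ → Y → Z} {I J : Ob X}
  {p : I.I → Y} {q : J.I → Y} {n r : ℕ} {f : (OA R ρ).Hom I J}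

theorem Cov.lab (h : Cov K Nb c σ) (hf : Ct Nb p q n f) (hp : ∀ i, n < c r (p i)) :
    On (rel (fun i => σ r (p i)) (fun j => σ r (q j)) Eq) f := fun i j g e =>
  (h.σ_loc (hf i j g e) (hp i)).trans (h.σ_inv r g _)

theorem Cov.lip (h : Cov K Nb c σ) (hf : Ct Nb p q n f) {i : I.I} {j : J.I} {g : K}
    (e : cf f i j g ≠ 0) (r : ℕ) : c r (p i) ≤ c r (q j) + n ∧ c r (q j) ≤ c r (p i) + n := by
  rw [← h.c_inv r g (q j)]
  exact h.c_lip (hf i j g e)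

theorem On.pull {I' J' : Ob X} {s : I'.I → I.I} {t : J'.I → J.I} {f' : (OA R ρ).Hom I' J'}
    {T : I.I → J.I → K → Prop} (h : On (sp f s t) f') (k : On T f) :
    On (fun i j => T (s i) (t j)) f' := fun i j g e => k _ _ g (h i j g e)

theorem ct_of_eq (hs : Sca K Nb) (h : On (fun i j g => p i = q j ∧ g = 1) f) : Ct Nb p q 0 f :=
  h.mono fun i j g e => by
    change Nb 0 (p i) (g • q j)
    rw [e.1, e.2, one_smul]
    exact hs.rf _ _

theorem fin_pull {ι κ : Type} {y : ι → Y} (h : (Set.range y).Finite) (s : κ → ι) :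
    (Set.range fun i => y (s i)).Finite := h.subset (Set.range_comp_subset_range s y)

end

theorem Sqz.step : ∃ m : ℕ, ∀ r L M : ℕ, Sqz r (2 * L) 1 M →
    Sqz (r + 1) L 1 (max (M * m) (2 * L + 5)) := by
  obtain ⟨m, hm, ctl⟩ := sq_ctl
  refine ⟨m, fun r L M ih => ?_⟩
  intro X K Y Z _ _ _ Λ ρ Nb c σ hc π hπ a y l fin hl lo cδ hΓ col
  have hs := hc.sca
  obtain ⟨Γ, gΓ, cΓ, eΓ⟩ := hΓ
  obtain ⟨b, A, f, hf, sb, sA, nb, nA, se, δb, δA, of, k₀⟩ :=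
    exists_cut a (fun i => 3 + l i < c r (y i)) fun i j g h e => by
      have h1 : l j < l i := lo i j g e
      have := (hc.lip cδ e r).1
      omega
  obtain ⟨w, p, k, hw, gp, gk, e1, e2, ow, op, ok⟩ := k₀ Γ gΓ eΓ.symm
  clear k₀
  obtain ⟨d, s, i, f', nd, hi, hf', rfl, oi, δd, of'⟩ :=
    exists_sub (fun j => c r (y (sA j)) + l (sA j) ≤ 2 * L + 4) (fun i j g h e => by
      have h1 : l (sA j) < l (sA i) := lo _ _ g (δA i j g e)
      have := (hc.lip cδ (δA i j g e) r).2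
      omega) hf fun i j g e => by
      have h1 : l (sA j) < l (sb i) := lo _ _ g (of i j g e)
      have h2 := (hc.lip cδ (of i j g e) r).2
      have h3 := nb i
      have := hl (sb i)
      omega
  have cb : Ct Nb (fun i => y (sb i)) (fun i => y (sb i)) 1 b.δ := δb.pull cδ
  have cA : Ct Nb (fun i => y (sA i)) (fun i => y (sA i)) 1 A.δ := δA.pull cδ
  have cd : Ct Nb (fun i => y (sA (s i))) (fun i => y (sA (s i))) 1 d.δ := δd.pull cA
  have cf' : Cc Nb (fun i => y (sb i)) (fun i => y (sA (s i))) 1 f' :=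
    ⟨hf', of'.pull (of.pull cδ)⟩
  have ci : Cc Nb (fun i => y (sA (s i))) (fun i => y (sA i)) 0 i :=
    ⟨hi, ct_of_eq hs (oi.mono fun _ _ _ e => ⟨by rw [e.1], e.2.symm⟩)⟩
  have cw : Cc Nb (fun i => y (sA i)) (fun i => y (sb i)) 1 w := ⟨hw, ow.pull cΓ⟩
  have ck : Ct Nb (fun i => y (sA i)) (fun i => y (sA i)) 1 k := ok.pull cΓ
  have dA : ∀ n ≤ 3, ∀ i, n < c r (y (sA i)) := fun n h i => by
    have := nA i
    omega
  have lA : Lc A fun i => σ r (y (sA i)) :=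
    ⟨fin_comp (fin_pull fin sA) _, hc.lab cA (dA 1 (by omega))⟩
  have ld : Lc d fun i => σ r (y (sA (s i))) :=
    ⟨fin_comp (fin_pull (fin_pull fin sA) s) _, hc.lab cd fun _ => dA 1 (by omega) _⟩
  obtain ⟨S, τ, u', hτ, hu', u1, u2, ou, ou', oS⟩ := exists_sw2 hπ ld
  have ce := (ci.mul hs cw).mul hs cf'
  have cT := (ci.ct.mul hs ck).mul hs (cw.mul hs cf').ct
  have le := hc.lab (r := r) ce.ct fun _ => dA _ (by omega) _
  have lT := hc.lab (r := r) cT fun _ => dA _ (by omega) _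
  have gT : Gd (-1) d.deg d.deg (i * k * (w * f')) :=
    (hi.gd.mul' gk (zero_add _)).mul' (hw.mul hf').gd (add_zero _)
  have cP : Cc Nb (fun i => y (sA (s (τ i)))) (fun i => y (sA (s (τ i)))) 2 (S.S (i * w * f')) :=
    ⟨⟨S.S_gd _ _ ce.ch.gd, by rw [S.D0 ld le, ce.ch.d, map_zero]⟩, (oS _).pull ce.ct⟩
  have hP : Hn Nb (fun i => y (sA (s (τ i)))) (fun i => y (sA (s (τ i)))) 3
      (S.S (i * w * f') * S.S (i * w * f') - S.S (i * w * f')) :=
    ⟨_, S.S_gd _ _ gT, (oS _).pull cT, by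
      rw [S.D1 ld lT, ← S.S_mul _ _ le le, ← map_sub,
        ← (hw.mul hf').D1_mul (hi.gd.mul' gk (zero_add _)) odd_neg_one', ← hi.mul_D1, ← e2]
      simp only [Hm.mul_sub, Hm.sub_mul, Hm.mul_assoc, Hm.mul_one]⟩
  have el : ∀ j : d.ob.I ⊕ S.s.ob.I, Sum.elim (fun i => y (sA (s i)))
      (fun i => y (sA (s (τ i)))) j = y (sA (s (Sum.elim id τ j))) := by rintro (j | j) <;> rfl
  have h1 : Hn Nb (fun i => y (sb i)) (fun i => y (sb i)) 1 (f' * i * w - 1) :=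
    ⟨p, gp, op.pull cΓ, e1⟩
  have h2 : Hn Nb (fun i => y (sA i)) (fun i => y (sA i)) 1 (w * (f' * i) - 1) := ⟨k, gk, ck, e2⟩
  have δS : On (sp d.δ τ τ) S.s.δ := S.S_δ ▸ oS d.δ
  obtain ⟨hF, c1, c2⟩ := ctl hs cb (δS.pull cd) cf' ci cw
    ⟨S.si.ch, ct_of_eq hs (ou.mono fun _ j _ e => ⟨by rw [el, e.1], e.2⟩)⟩
    ⟨hu', ct_of_eq hs (ou'.mono fun j _ _ e => ⟨by rw [el, e.1], e.2⟩)⟩ cP h1 h2 hP u1 u2
    (S.nat _ le)
  refine (sq_tz hπ lA S.lc hf' hi hw S.si.ch hu' cP.ch h1.nh h2.nh hP.nh u1 u2 (S.nat _ le)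
    (hc.lab (cw.mul hs cf').ct (dA _ (by omega))) (ou'.mono ?_) (S.S_on _ le) hF ?_).of_se se
  · rintro (j | j) j' g ⟨e, rfl⟩
    · change _ = (1 : K) • S.ps j'
      rw [one_smul, hτ, ← e]
      rfl
    · change S.ps j = (1 : K) • S.ps j'
      rw [one_smul, hτ, hτ, ← e]
      rfl
  have lS : Lo (fun i => l (sA (s (τ i)))) (fun i => l (sA (s (τ i)))) S.s.δ :=
    δS.pull (δd.pull (δA.pull lo))
  have fS := fin_pull (fin_pull (fin_pull fin sA) s) τ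
  have cl : ∀ j, c r (y j) ≤ 2 * L + 4 → ∃ t < r, M * m ≤ c t (y j) := fun j h => by
    obtain ⟨t, h1, h2⟩ := col j
    refine ⟨t, lt_of_le_of_ne (Nat.lt_succ_iff.1 h1) ?_, (le_max_left _ _).trans h2⟩
    rintro rfl
    have := (le_max_right _ _).trans h2
    omega
  have lB : Lo (I := b.ob + S.s.ob) (J := b.ob + S.s.ob)
      (Sum.elim (fun i => l (sb i)) fun i => l (sA (s (τ i))))
      (Sum.elim (fun i => l (sb i)) fun i => l (sA (s (τ i)))) (b + S.s).δ :=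
    on_fromBlocks.2 ⟨δb.pull lo, on_zero, on_zero, lS⟩
  refine ih.scale hm hc hπ (cn _ hF) _ (Sum.elim (fun j => Sum.elim (fun i => l (sb i))
    (fun i => l (sA (s (τ i)))) j + L) fun i => l (sA (s (τ i))))
    (fin_elim (fin_elim (fin_pull fin sb) fS) fS) ?_ (on_fromBlocks.2 ⟨On.neg (lB.mono
      fun _ _ _ e => Nat.add_lt_add_right e L), fun _ _ _ _ => Nat.lt_add_left _ (hl _), on_zero,
        lS⟩) c1 c2 ?_
  · rintro ((j | j) | j)
    · exact (Nat.add_lt_add_right (hl _) L).trans_eq (two_mul L).symm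
    · exact (Nat.add_lt_add_right (hl _) L).trans_eq (two_mul L).symm
    · exact (hl _).trans_le (Nat.le_mul_of_pos_left L two_pos)
  · rintro ((j | j) | j)
    · refine cl _ ?_
      have := nb j
      have := hl (sb j)
      omega
    · exact cl _ ((Nat.le_add_right _ _).trans (nd _))
    · exact cl _ ((Nat.le_add_right _ _).trans (nd _))

theorem squeeze (r L n : ℕ) : ∃ M, Sqz r L n M := by
  have h : ∀ r L, ∃ M, Sqz r L 1 M := fun r => by
    obtain ⟨m, hm⟩ := Sqz.step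
    induction r with
    | zero => exact fun L => ⟨0, sqz_zero L 1 0⟩
    | succ r ih => exact fun L => (ih (2 * L)).elim fun M k => ⟨_, hm r L M k⟩
  obtain ⟨M, k⟩ := h r L
  refine ⟨M * (n + 1), ?_⟩
  intro X K Y Z _ _ _ Λ ρ Nb c σ hc π hπ a y l h1 h2 h3 h4 h5
  exact k.scale n.succ_pos hc hπ a y l h1 h2 h3 (h4.mono hc.sca n.le_succ)
    (h5.mono hc.sca n.le_succ)

end Pool.Agent.Work.MP_9d1ffa_al.Dg
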