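import Pool.Agent.Work.MP_9d1ffa_al.Sq.Cv

/-! Colours, depths and labels from weights with boundedly many atoms. -/

namespace Pool.Agent.Work.MP_9d1ffa_al.Dg

variable {X K : Type} [Group K]

/-- weights with at most `N` atoms, all good, one of them large -/
def Wt_Y (N : ℕ) {Ω : Type} (Good : Ω → Prop) : Type :=
  {w : Ω → ℝ // (Function.support w).Finite ∧ (Function.support w).ncard ≤ N ∧
    (∃ ω, 1 / 4 ≤ w ω) ∧ ∀ ω, w ω ≠ 0 → Good ω}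

/-- finite nonempty sets of good points -/
def Wt_Z {Ω : Type} (Good : Ω → Prop) : Type :=
  {z : Set Ω // z.Finite ∧ z.Nonempty ∧ ∀ ω ∈ z, Good ω}

section
variable {Ω : Type} [MulAction K Ω] {Good : Ω → Prop} {N : ℕ}

theorem Wt_pre (g : K) (z : Set Ω) : {ω | g⁻¹ • ω ∈ z} = (fun ω => g • ω) '' z := by
  ext ω
  exact ⟨fun h => ⟨_, h, smul_inv_smul g ω⟩, fun ⟨a, h, e⟩ => by
    show g⁻¹ • ω ∈ z
    rw [← e]
    simpa using h⟩

/-- the action on weights -/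
@[reducible] def Wt_aY (hG : ∀ (g : K) ω, Good ω → Good (g • ω)) : MulAction K (Wt_Y N Good) where
  smul g w := ⟨fun ω => w.1 (g⁻¹ • ω), by
    have e : (Function.support fun ω => w.1 (g⁻¹ • ω)) =
        (fun ω => g • ω) '' Function.support w.1 := Wt_pre g (Function.support w.1)
    obtain ⟨h1, h2, ⟨a, h3⟩, h4⟩ := w.2
    refine ⟨e ▸ h1.image _, ?_, ⟨g • a, by simpa using h3⟩, fun ω h => ?_⟩
    · rw [e, Set.ncard_image_of_injective _ (MulAction.injective g)]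
      exact h2
    · simpa using hG g _ (h4 _ h)⟩
  one_smul w := Subtype.ext (funext fun ω => show w.1 ((1 : K)⁻¹ • ω) = w.1 ω by simp)
  mul_smul g h w := Subtype.ext (funext fun ω =>
    show w.1 ((g * h)⁻¹ • ω) = w.1 (h⁻¹ • g⁻¹ • ω) by rw [mul_inv_rev, mul_smul])

/-- the action on sets -/
@[reducible] def Wt_aZ (hG : ∀ (g : K) ω, Good ω → Good (g • ω)) : MulAction K (Wt_Z Good) where
  smul g z := ⟨{ω | g⁻¹ • ω ∈ z.1}, by
    obtain ⟨h1, h2, h3⟩ := z.2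
    refine ⟨Wt_pre g z.1 ▸ h1.image _, Wt_pre g z.1 ▸ h2.image _, fun ω h => ?_⟩
    simpa using hG g _ (h3 _ h)⟩
  one_smul z := Subtype.ext (Set.ext fun ω => show (1 : K)⁻¹ • ω ∈ z.1 ↔ ω ∈ z.1 by simp)
  mul_smul g h z := Subtype.ext (Set.ext fun ω =>
    show (g * h)⁻¹ • ω ∈ z.1 ↔ h⁻¹ • g⁻¹ • ω ∈ z.1 by rw [mul_inv_rev, mul_smul])

omit [MulAction K Ω] in
theorem Wt_le (w : Ω → ℝ) (μ : ℝ) (ω : Ω) : ⨅ ω, |w ω - μ| ≤ |w ω - μ| :=
  ciInf_le ⟨0, fun _ ⟨_, e⟩ => e ▸ abs_nonneg _⟩ ω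

omit [MulAction K Ω] in
theorem Wt_lip [Nonempty Ω] {w w' : Ω → ℝ} {η : ℝ} (hη : 0 < η) {n : ℕ}
    (h : ∀ ω, |w ω - w' ω| ≤ n * η) (μ : ℝ) :
    ⌊(⨅ ω, |w ω - μ|) / η⌋₊ ≤ ⌊(⨅ ω, |w' ω - μ|) / η⌋₊ + n := by
  have k0 : 0 ≤ ⨅ ω, |w' ω - μ| := le_ciInf fun ω => abs_nonneg _
  have k : (⨅ ω, |w ω - μ|) - n * η ≤ ⨅ ω, |w' ω - μ| := le_ciInf fun ω => by
    have := Wt_le w μ ω
    have := abs_sub_le (w ω) (w' ω) μ
    have := h ω
    linarith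
  rw [← Nat.floor_add_natCast (div_nonneg k0 hη.le)]
  refine Nat.floor_mono ?_
  rw [div_add' _ _ _ hη.ne', div_le_div_iff_of_pos_right hη]
  linarith

omit [MulAction K Ω] in
theorem Wt_loc {w w' : Ω → ℝ} {η μ : ℝ} (hη : 0 < η) {n : ℕ}
    (h : ∀ ω, |w ω - w' ω| ≤ n * η) (hn : n < ⌊(⨅ ω, |w ω - μ|) / η⌋₊) (ω : Ω) :
    μ < w ω ↔ μ < w' ω := by
  have k : ((n + 1 : ℕ) : ℝ) ≤ (⨅ ω, |w ω - μ|) / η :=
    (Nat.le_floor_iff' (Nat.succ_ne_zero n)).1 hn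
  rw [le_div_iff₀ hη] at k
  push_cast at k
  have k1 := k.trans (Wt_le w μ ω)
  have k2 := abs_le.1 (h ω)
  rcases lt_or_ge μ (w ω) with e | e
  · rw [abs_of_pos (sub_pos.2 e)] at k1
    exact iff_of_true e (by linarith [k2.2])
  · rw [abs_of_nonpos (sub_nonpos.2 e)] at k1
    exact iff_of_false (not_lt.2 e) (not_lt.2 (by linarith [k2.1]))

omit [MulAction K Ω] in
theorem Wt_pig {w : Ω → ℝ} (h1 : (Function.support w).Finite)
    (h2 : (Function.support w).ncard ≤ N) {l : ℝ}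
    (h : ∀ r : Fin (N + 1), ∃ ω, |w ω - (2 * (r : ℕ) + 1) * l| < l) : False := by
  choose f hf using h
  have hl : 0 < l := (abs_nonneg _).trans_lt (hf 0)
  have lt : ∀ r s : Fin (N + 1), r < s → w (f r) < w (f s) := fun r s e => by
    have e' : ((r : ℕ) : ℝ) + 1 ≤ (s : ℕ) := by exact_mod_cast e
    have a := (abs_lt.1 (hf r)).2
    have b := (abs_lt.1 (hf s)).1
    nlinarith
  have inj : Function.Injective f := fun r s e => by
    rcases lt_trichotomy r s with k | k | k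
    · exact absurd (lt r s k) (by rw [e]; exact lt_irrefl _)
    · exact k
    · exact absurd (lt s r k) (by rw [e]; exact lt_irrefl _)
  have sub : Set.range f ⊆ Function.support w := by
    rintro _ ⟨r, rfl⟩
    have b := (abs_lt.1 (hf r)).1
    have : 0 ≤ ((r : ℕ) : ℝ) * l := by positivity
    exact ne_of_gt (show 0 < w (f r) by linarith)
  have := (Set.ncard_le_ncard sub h1).trans h2
  rw [Set.ncard_range_of_injective inj, Nat.card_eq_fintype_card, Fintype.card_fin] at this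
  omega

end

theorem exists_cov (ρ : K →* Equiv.Perm X) (N M : ℕ) : ∃ η : ℝ, 0 < η ∧
    ∀ (Ω : Type) [MulAction K Ω] (Good : Ω → Prop), (∀ (g : K) ω, Good ω → Good (g • ω)) →
      (∀ z : Set Ω, z.Finite → z.Nonempty → (∀ ω ∈ z, Good ω) →
        ∃ x : X, ∀ g : K, (∀ ω, ω ∈ z ↔ g • ω ∈ z) → ρ g x = x) →
      ∀ (P : Type) (W : P → Ω → ℝ), (∀ p, (Function.support (W p)).Finite) →
        (∀ p, (Function.support (W p)).ncard ≤ N) → (∀ p, ∃ ω, 1 / 4 ≤ W p ω) →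
        (∀ p ω, W p ω ≠ 0 → Good ω) →
        ∃ (Y Z : Type) (_ : MulAction K Y) (_ : MulAction K Z) (Nb : ℕ → Y → Y → Prop)
          (c : ℕ → Y → ℕ) (σ : ℕ → Y → Z) (π : Z → X) (w : P → Y), Cov K Nb c σ ∧
          (∀ (g : K) z, π (g • z) = ρ g (π z)) ∧ (∀ y, ∃ r < N + 1, M ≤ c r y) ∧
          ∀ (g : K) p q, (∀ ω, |W q (g • ω) - W p ω| ≤ η) → Nb 1 (w p) (g⁻¹ • w q) := by
  obtain ⟨l, hl, hlN⟩ : ∃ l : ℝ, 0 < l ∧ (2 * N + 1) * l < 1 / 4 :=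
    ⟨1 / (8 * (N + 1)), by positivity, by
      rw [mul_one_div, div_lt_div_iff₀ (by positivity) (by positivity)]
      linarith⟩
  obtain ⟨η, hη, hM⟩ : ∃ η : ℝ, 0 < η ∧ M * η < l :=
    ⟨l / (M + 1), by positivity, by
      rw [mul_div_assoc', div_lt_iff₀ (by positivity)]
      linarith⟩
  refine ⟨η, hη, fun Ω _ Good hG hF P W h1 h2 h3 h4 => ?_⟩
  obtain ⟨μ, hμ, μ0, μ1⟩ : ∃ μ : ℕ → ℝ, (∀ r ≤ N, μ r = (2 * r + 1) * l) ∧ (∀ r, 0 < μ r) ∧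
      ∀ r, μ r < 1 / 4 :=
    ⟨fun r => (2 * (min r N : ℕ) + 1) * l, fun r h => by simp only [min_eq_left h],
      fun r => by positivity, fun r => by
        have : ((min r N : ℕ) : ℝ) ≤ N := by exact_mod_cast min_le_right r N
        exact lt_of_le_of_lt (mul_le_mul_of_nonneg_right (by linarith) hl.le) hlN⟩
  let _ : MulAction K (Wt_Y N Good) := Wt_aY hG
  let _ : MulAction K (Wt_Z Good) := Wt_aZ hG
  obtain ⟨π, hπ⟩ : ∃ π : Wt_Z Good → X, ∀ (g : K) z, π (g • z) = ρ g (π z) := by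
    let _ : MulAction K X := MulAction.compHom X ρ
    refine exists_eqv (ρ := MulAction.toPermHom K (Wt_Z Good)) (V := X) fun z => ?_
    obtain ⟨x, hx⟩ := hF z.1 z.2.1 z.2.2.1 z.2.2.2
    refine ⟨x, fun g e => hx g fun ω => ?_⟩
    have e' : g⁻¹ • g • ω ∈ z.1 ↔ g • ω ∈ z.1 := Set.ext_iff.1 (congrArg Subtype.val e) (g • ω)
    rwa [inv_smul_smul] at e'
  refine ⟨Wt_Y N Good, Wt_Z Good, inferInstance, inferInstance,
    fun m w w' => ∀ ω, |w.1 ω - w'.1 ω| ≤ m * η, fun r w => ⌊(⨅ ω, |w.1 ω - μ r|) / η⌋₊,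
    fun r w => ⟨{ω | μ r < w.1 ω}, w.2.1.subset fun ω h => ((μ0 r).trans h).ne',
      w.2.2.2.1.imp fun ω h => (μ1 r).trans_le h, fun ω h => w.2.2.2.2 ω ((μ0 r).trans h).ne'⟩,
    π, fun p => ⟨W p, h1 p, h2 p, h3 p, h4 p⟩,
    ⟨⟨fun n g a b h ω => h (g⁻¹ • ω), fun n y ω => by
        rw [sub_self, abs_zero]
        positivity, fun {m n x y z} h h' ω => ?_⟩, fun r g y => ?_, fun {r n x y} h => ?_,
      fun r g y => rfl, fun {r n x y} h hn => Subtype.ext (Set.ext (Wt_loc hη h hn))⟩,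
    hπ, fun y => ?_, fun g p q h ω => ?_⟩
  · have := abs_sub_le (x.1 ω) (y.1 ω) (z.1 ω)
    have := h ω
    have := h' ω
    push_cast
    linarith
  · exact congrArg (fun t => ⌊t / η⌋₊)
      ((MulAction.surjective g⁻¹).iInf_comp fun ω => |y.1 ω - μ r|)
  · have : Nonempty Ω := ⟨x.2.2.2.1.choose⟩
    exact ⟨Wt_lip hη h _, Wt_lip hη (fun ω => abs_sub_comm (x.1 ω) _ ▸ h ω) _⟩
  · have : Nonempty Ω := ⟨y.2.2.2.1.choose⟩
    by_contra k
    refine Wt_pig y.2.1 y.2.2.1 (l := l) fun r => ?_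
    have k1 : ⌊(⨅ ω, |y.1 ω - μ r|) / η⌋₊ < M := not_le.1 fun e => k ⟨r, r.2, e⟩
    rw [Nat.floor_lt' (by omega), div_lt_iff₀ hη] at k1
    rw [← hμ r (Nat.le_of_lt_succ r.2)]
    exact exists_lt_of_ciInf_lt (k1.trans hM)
  · show |W p ω - W q (g⁻¹⁻¹ • ω)| ≤ (1 : ℕ) * η
    rw [inv_inv, abs_sub_comm, Nat.cast_one, one_mul]
    exact h ω

end Pool.Agent.Work.MP_9d1ffa_al.Dg
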