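import Pool.Agent.Work.MP_9d1ffa_al.Sq.TrC
import Pool.Agent.Work.MP_9d1ffa_al.Sq.SqC
import Pool.Agent.Work.MP_9d1ffa_al.Sq.Wt
import Pool.Agent.Work.MP_9d1ffa_al.Sq.ChB
import Pool.Agent.Work.MP_9d1ffa_al.Sq.Wr
import Pool.Agent.Work.MP_9d1ffa_al.Sq.Fl
import Pool.Agent.Work.MP_9d1ffa_al.GN.AlC

/-! Assembly. -/

namespace Pool.Agent.Work.MP_9d1ffa_al.Dg

open GN Sq
open G2 (Pl)

variable {X K : Type} [Group K] {Λ : DG} {ρ : K →* Equiv.Perm X}

/-- Reduction to finitely generated groups. -/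
theorem vanS_of_fg
    (h : ∀ S : Finset K, VanS Λ (ρ.comp (Subgroup.closure (S : Set K)).subtype)) : VanS Λ ρ := by
  classical
  rintro a ⟨Γ, gΓ, eΓ⟩
  obtain ⟨T, hT⟩ := (cts a.δ).1
  obtain ⟨T', hT'⟩ := (cts Γ).1
  let H := Subgroup.closure ((T ∪ T' : Finset K) : Set K)
  have inj : Set.InjOn H.subtype Set.univ := H.subtype_injective.injOn
  have mem : ∀ g ∈ T ∪ T', g ∈ H.subtype '' Set.univ := fun g hg =>
    ⟨⟨g, Subgroup.subset_closure hg⟩, trivial, rfl⟩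
  obtain ⟨J, -, rfl⟩ := DQ_tw inj (fun _ _ _ _ => trivial) a
    fun i j g e => mem g (Finset.mem_union_left _ (hT i j g e))
  obtain ⟨Γ', -, rfl, h3⟩ := exists_lift H.subtype inj (A := Γ)
    fun i j g e => mem g (Finset.mem_union_right _ (hT' i j g e))
  refine (h _ J ⟨Γ', DQ_gd gΓ h3,
    sub_eq_zero.1 (pf_inj H.subtype inj (fun _ _ _ _ => trivial) ?_)⟩).pf _
  rw [pf_sub, ← D1_pf, eΓ, pf_one, sub_self]

open Pointwise MulAction in
theorem Top_fix {Ω : Type} [MulAction K Ω] {F : Set (Subgroup K)}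
    (hF : ∀ H, ∀ H' ∈ F, H'.relIndex H ≠ 0 → ∃ z, ∀ g ∈ H, ρ g z = z)
    (z : Set Ω) (hz : z.Finite) (hne : z.Nonempty) (hg : ∀ ω ∈ z, ∃ H ∈ F, stabilizer K ω ≤ H) :
    ∃ x : X, ∀ g : K, (∀ ω, ω ∈ z ↔ g • ω ∈ z) → ρ g x = x := by
  obtain ⟨ω, hω⟩ := hne
  obtain ⟨H, h1, h2⟩ := hg ω hω
  refine (hF (stabilizer K z) H h1 fun c => ?_).imp fun x e g k =>
      e g (mem_stabilizer_set.2 fun b => (k b).symm)
  refine absurd (Subgroup.relIndex_eq_zero_of_le_left h2 c) ?_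
  change (stabilizer (stabilizer K z) ω).index ≠ 0
  rw [index_stabilizer]
  refine Set.ncard_ne_zero_of_mem (mem_orbit_self ω) (hz.subset ?_)
  rintro _ ⟨g, rfl⟩
  exact (mem_stabilizer_set.1 g.2 ω).2 hω

/-- Transfer to the space of weights and squeeze. -/
theorem vanS_of_tw {F : Set (Subgroup K)} {d N : ℕ} (h : TW K F d N)
    (hF : ∀ H, ∀ H' ∈ F, H'.relIndex H ≠ 0 → ∃ z, ∀ g ∈ H, ρ g z = z) : VanS Λ ρ := by
  classical
  rintro a ⟨Γ, gΓ, eΓ⟩
  obtain ⟨l, hb, hδ⟩ := a.lev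
  obtain ⟨L, hl⟩ := bd_iff.1 hb
  obtain ⟨T₁, h₁⟩ := (cts a.δ).1
  obtain ⟨T₂, h₂⟩ := (cts Γ).1
  obtain ⟨M, hM⟩ := squeeze (N + 1) (L + (d + 1)) (2 * L + 1)
  obtain ⟨η, hη, hc⟩ := exists_cov ρ N M
  obtain ⟨Ω, P, _, _, _, Good, t, g1, g2, g3⟩ :=
    h ((T₁ ∪ T₂).image fun g => g⁻¹) (2 * L + 2) η hη
  obtain ⟨Y, Z, _, _, Nb, c, σ, π, w, cov, hπ, hcol, hw⟩ := hc Ω Good g1
    (fun z h1 h2 h3 => Top_fix hF z h1 h2 fun ω e => g2 ω (h3 ω e)) P t.y (fun p => (g3 p).fin)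
    (fun p => (g3 p).card) (fun p => (g3 p).big) fun p => (g3 p).good
  let t₁ : TD K P Y (Nb 1) _ (2 * L + 2) d :=
    { t with
      y := w
      y_R := fun a ha z hz e => by
        have := hw 1 a z fun ω => by rw [one_smul]; exact t.y_R a ha z hz e ω
        rwa [inv_one, one_smul] at this
      y_act := fun g hg a ha z hz l1 l2 => hw g a z fun ω => by
        have : |t.y z (g⁻¹⁻¹ • ω) - t.y a ω| ≤ η := t.y_act g hg a ha z hz l1 l2 ω
        rwa [inv_inv] at this }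
  obtain ⟨Q, _, ⟨t'⟩⟩ := t₁.ct
  obtain ⟨b, y, l', h1, h2, h3, h4, h5, h6⟩ := transfer cov.sca t' (π (σ 0 (t'.y t'.o))) a hl hδ
    gΓ eΓ (fun i j g e => Finset.mem_image_of_mem _ (Finset.mem_union_left _ (h₁ i j g e)))
    fun i j g e => Finset.mem_image_of_mem _ (Finset.mem_union_right _ (h₂ i j g e))
  exact h6 (hM cov hπ b y l' h1 h2 h3 h4 h5 fun i => hcol _)

/-- Subgroups of wreath products of linear groups. -/
theorem vanD_wreath (k E : Type) [Field k] [Field E] [Algebra k E] (n : ℕ) (Q G X : Type) [Group Q]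
    [Finite Q] [Group G] (φ : G →* Matrix.SpecialLinearGroup (Fin n) E ≀ᵣ Q)
    (ρ : G →* Equiv.Perm X)
    (hF : ∀ H H' : Subgroup G, H' ≤ H → H'.relIndex H ≠ 0 → (∀ g ∈ H', (φ g).right = 1) →
      (∀ q, Submodule.span E ((fun g => ((φ g).left q).1) '' (H' : Set G)) ≠ ⊤ ∨
        ∀ g ∈ H', IsAlgebraic k ((φ g).left q).1.trace) → ∃ z, ∀ g ∈ H, ρ g z = z) : VanD ρ := by
  classical
  let _ := Fintype.ofFinite Q
  refine vanD_iff.2 fun K _ θ Λ => vanS_of_fg fun S => ?_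
  let τ := θ.comp (Subgroup.closure (S : Set K)).subtype
  let S' : Finset (SN n E) := (S ×ˢ Finset.univ).image fun p : K × Q => (φ (θ p.1)).left p.2
  let D := Subgroup.closure (S' : Set (SN n E))
  obtain ⟨F, _, f, I, _, av, A, ha, hL, hT, hal⟩ := exists_places k E (ent S')
  have hent : ∀ g ∈ D, ∀ i j, g.1 i j ∈ A.map f :=
    closure_entries _ fun s hs i j => hT _ (mem_ent hs i j)
  obtain ⟨χ, -, e⟩ := GN.exists_lift f D fun g hg i j => (hent g hg i j).imp fun _ e => e.2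
  have hmem : ∀ g ∈ Subgroup.closure (S : Set K), ∀ q, (φ (θ g)).left q ∈ D := fun g hg => by
    induction hg using Subgroup.closure_induction with
    | mem s hs => exact fun q => Subgroup.subset_closure (Finset.mem_image.2
        ⟨(s, q), Finset.mem_product.2 ⟨hs, Finset.mem_univ _⟩, rfl⟩)
    | one => intro q; rw [map_one, map_one]; exact D.one_mem
    | mul x y _ _ h h' => intro q; rw [map_mul, map_mul]; exact D.mul_mem (h q) (h' _)
    | inv x _ h => intro q; rw [map_inv, map_inv]; exact D.inv_mem (h _)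
  let ω : Subgroup.closure (S : Set K) →* D ≀ᵣ Q := MonoidHom.mk'
    (fun g => ⟨fun q => ⟨(φ (τ g)).left q, hmem g.1 g.2 q⟩, (φ (τ g)).right⟩) fun g h =>
      RegularWreathProduct.ext (funext fun q => Subtype.ext (by
        change (φ (τ (g * h))).left q = _
        rw [map_mul, map_mul]; rfl)) (by
        change (φ (τ (g * h))).right = _
        rw [map_mul, map_mul]; rfl)
  let ψ := (Matrix.SpecialLinearGroup.toGL : SN n F →* GL (Fin n) F).comp χ
  have hA : ∀ g p q, (ψ g).1 p q ∈ A := fun g i j => by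
    obtain ⟨a, ha', h⟩ := hent _ g.2 i j
    rwa [show (ψ g).1 i j = a from f.injective ((e g i j).trans h.symm)]
  refine vanS_of_tw (((tw_linear ha hL ψ (fun g => (χ g).2) hA).wreath (Q := Q)).comap ω) ?_
  rintro H _ ⟨H₁, h₁, rfl⟩ hi
  let N := (RegularWreathProduct.rightHom.comp ω).ker
  have hN : N.relIndex H ≠ 0 := fun c => Subgroup.FiniteIndex.index_ne_zero
    (Subgroup.index_eq_zero_of_relIndex_eq_zero c)
  have key : ∀ g ∈ (H₁.comap ω ⊓ N) ⊓ H, ∀ q, (ω g).left q ∈ (h₁ q).choose := fun g hg q =>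
    (h₁ q).choose_spec.2 _ hg.1.1 hg.1.2
  refine (hF (H.map τ) (((H₁.comap ω ⊓ N) ⊓ H).map τ) (Subgroup.map_mono inf_le_right)
    (fun h => Subgroup.relIndex_inf_ne_zero hi hN ?_) ?_ fun q => (h₁ q).choose_spec.1.imp
      (fun h => ?_) fun h => ?_).imp fun z hz g hg => hz _ ⟨g, hg, rfl⟩
  · rw [← Subgroup.inf_relIndex_right]
    exact Subgroup.relIndex_eq_zero_of_le_left (Subgroup.le_comap_map τ _)
      ((Subgroup.relIndex_comap _ _ _).trans h)
  · rintro _ ⟨g, hg, rfl⟩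
    exact hg.1.2
  · refine fun h' => span_ne_map f _ h (top_le_iff.1 (h'.ge.trans (Submodule.span_mono ?_)))
    rintro _ ⟨_, ⟨g, hg, rfl⟩, rfl⟩
    exact ⟨_, ⟨_, key g hg q, rfl⟩, Matrix.ext (e _)⟩
  · rintro _ ⟨g, hg, rfl⟩
    have h1 : ((φ (τ g)).left q).1.trace = f (ψ ((ω g).left q)).1.trace := by
      simp only [Matrix.trace, Matrix.diag, map_sum]
      exact Finset.sum_congr rfl fun i _ => (e ((ω g).left q) i i).symm
    rw [h1]
    exact hal _ (A.sum_mem fun i _ => hA _ i i) fun i => h i _ (key g hg q)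

end Pool.Agent.Work.MP_9d1ffa_al.Dg
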