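import Pool.Agent.Work.MP_9d1ffa_al.Sq.Cc
import Pool.Agent.Work.MP_9d1ffa_al.Sq.Df

/-! Tensor products of controlled morphisms with integral matrices on cells. -/

namespace Pool.Agent.Work.MP_9d1ffa_al.Dg

open Sq Finsupp

variable {X K W : Type} [Group K] [MulAction K W] {Λ : DG} {ρ : K →* Equiv.Perm X} {a : Ob X}

/-- finite families of cells -/
structure Fm (a : Ob X) (W : Type) where
  U : a.I → Set W
  fin : (⋃ i, U i).Finite

/-- the object of pairs -/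
@[reducible] def Fm.ob (F : Fm a W) : Ob X where
  I := {p : a.I × W // p.2 ∈ F.U p.1}
  t p := a.t p.1.1
  x p := a.x p.1.1
  fin n := Set.Finite.of_finite_image (f := Subtype.val) (((a.fin n).prod F.fin).subset (by
      rintro _ ⟨x, hx, rfl⟩
      exact ⟨hx, Set.mem_iUnion.2 ⟨_, x.2⟩⟩)) Subtype.val_injective.injOn
  pos p := a.pos _
  tot p := a.tot _
  cpt := a.cpt.imp fun _ h p => h _

/-- the tensor product -/
noncomputable def mu (F F' : Fm a W) (f : (OA Λ.A ρ).Hom a a) (φ : W → W →₀ ℤ) :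
    (OA Λ.A ρ).Hom F.ob F'.ob :=
  ofCf (fun p q g => φ p.1.2 (g • q.1.2) • cf f p.1.1 q.1.1 g)
    (((cts f).pull (a' := F.ob) (b' := F'.ob) (fun p => p.1.1) (fun p => p.1.1) (fun _ => rfl)
      (fun _ => rfl) (fun _ => rfl) fun _ => rfl).mono fun _ _ _ e k => e (by
        rw [show cf f _ _ _ = 0 from k, smul_zero]))

/-- the identity matrix -/
noncomputable def idm (c : W) : W →₀ ℤ := single c 1

variable {F F' F'' : Fm a W} {f f' : (OA Λ.A ρ).Hom a a} {φ ψ : W → W →₀ ℤ}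

theorem cf_mu (p : F.ob.I) (q : F'.ob.I) (g : K) :
    cf (mu F F' f φ) p q g = φ p.1.2 (g • q.1.2) • cf f p.1.1 q.1.1 g := rfl

theorem mu_ne {p : F.ob.I} {q : F'.ob.I} {g : K} (h : cf (mu F F' f φ) p q g ≠ 0) :
    φ p.1.2 (g • q.1.2) ≠ 0 ∧ cf f p.1.1 q.1.1 g ≠ 0 :=
  ⟨fun e => h (by rw [cf_mu, e, zero_smul]), fun e => h (by rw [cf_mu, e, smul_zero])⟩

theorem mu_one_ne {p : F.ob.I} {q : F'.ob.I} {g : K}
    (h : cf (mu (Λ := Λ) (ρ := ρ) F F' 1 φ) p q g ≠ 0) :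
    p.1.1 = q.1.1 ∧ g = 1 ∧ φ p.1.2 q.1.2 ≠ 0 := by
  obtain ⟨h1, h2⟩ := mu_ne h
  obtain ⟨e, rfl⟩ := cf_one_ne h2
  exact ⟨e, rfl, by rwa [one_smul] at h1⟩

theorem mu_add_left : mu F F' (f + f') φ = mu F F' f φ + mu F F' f' φ :=
  hom_ext fun _ _ _ => smul_add _ _ _

theorem mu_add_right : mu F F' f (φ + ψ) = mu F F' f φ + mu F F' f ψ :=
  hom_ext fun _ _ _ => add_smul _ _ _

theorem mu_sub_right : mu F F' f (φ - ψ) = mu F F' f φ - mu F F' f ψ :=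
  hom_ext fun _ _ _ => sub_smul _ _ _

theorem mu_zero_left : mu (Λ := Λ) (ρ := ρ) F F' 0 φ = 0 := hom_ext fun _ _ _ => smul_zero _

theorem mu_congr (h : ∀ i, ∀ c ∈ F.U i, φ c = ψ c) : mu F F' f φ = mu F F' f ψ :=
  hom_ext fun p q g => by rw [cf_mu, cf_mu, h _ _ p.2]

theorem mu_eq_zero (h : ∀ i, ∀ c ∈ F.U i, φ c = 0) : mu F F' f φ = 0 :=
  hom_ext fun p q g => by rw [cf_mu, h _ _ p.2]; exact zero_smul _ _

theorem mu_id : mu (Λ := Λ) (ρ := ρ) F F 1 idm = 1 := hom_ext fun p q g => by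
  classical
  rw [cf_mu, cf_one, cf_one, idm, single_apply]
  by_cases e : p = q ∧ g = 1
  · obtain ⟨rfl, rfl⟩ := e
    simp
  · rw [if_neg e]
    split_ifs with h1 h2
    · exact absurd ⟨Subtype.ext (Prod.ext h2.1 (by rwa [h2.2, one_smul] at h1)), h2.2⟩ e
    all_goals simp

theorem mu_mul (h1 : ∀ i j g, cf f i j g ≠ 0 → ∀ c c', ψ (g • c) (g • c') = ψ c c')
    (h2 : ∀ i j g, cf f i j g ≠ 0 → ∀ c ∈ F.U i, ∀ c', φ c (g • c') ≠ 0 →
      c' ∈ F'.U j ∨ ∀ (k : a.I) (g' : K), ∀ c'' ∈ F''.U k, ψ c' (g' • c'') = 0) :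
    mu F F' f φ * mu F' F'' f' ψ = mu F F'' (f * f') fun c => lx ψ (φ c) := by
  classical
  refine hom_ext fun p r g => ?_
  obtain ⟨s, hs, -⟩ := cf_mul_eq f f' p.1.1
  let T : Finset ((a.I × K) × W) := (s ×ˢ (φ p.1.2).support).filter fun x =>
    cf f p.1.1 x.1.1 x.1.2 ≠ 0 ∧ x.1.2⁻¹ • x.2 ∈ F'.U x.1.1
  let m : T → F'.ob.I × K := fun x =>
    (⟨(x.1.1.1, x.1.1.2⁻¹ • x.1.2), (Finset.mem_filter.1 x.2).2.2⟩, x.1.1.2)
  have hm : Function.Injective m := fun x y e => by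
    have e1 : x.1.1.1 = y.1.1.1 := congrArg (fun z => z.1.1.1) e
    have e2 : x.1.1.2 = y.1.1.2 := congrArg (fun z => z.2) e
    have e3 : x.1.1.2⁻¹ • x.1.2 = y.1.1.2⁻¹ • y.1.2 := congrArg (fun z => z.1.1.2) e
    rw [e2] at e3
    exact Subtype.ext (Prod.ext (Prod.ext e1 e2) (MulAction.injective _ e3))
  rw [DW1_mul _ _ p (Finset.univ.map ⟨m, hm⟩) fun q h e => Finset.mem_map.2
      ⟨⟨((q.1.1, h), h • q.1.2), Finset.mem_filter.2 ⟨Finset.mem_product.2 ⟨hs _ _ (mu_ne e).2,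
        mem_support_iff.2 (mu_ne e).1⟩, (mu_ne e).2, by rw [inv_smul_smul]; exact q.2⟩⟩,
        Finset.mem_univ _, Prod.ext (Subtype.ext (Prod.ext rfl (inv_smul_smul _ _))) rfl⟩,
    Finset.sum_map, cf_mu, DW1_mul f f' _ s hs, linearCombination_apply, Finsupp.sum,
    finsetSum_apply, Finset.sum_smul_sum, Finset.sum_comm, ← Finset.sum_product']
  let v : (a.I × K) × W → Λ.A := fun x => (φ p.1.2 x.2 • ψ x.2) (g • r.1.2) •
    (cf f p.1.1 x.1.1 x.1.2 * cf f' x.1.1 r.1.1 (x.1.2⁻¹ * g))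
  have e : ∀ x : (a.I × K) × W, cf f p.1.1 x.1.1 x.1.2 ≠ 0 →
      ψ (x.1.2⁻¹ • x.2) ((x.1.2⁻¹ * g) • r.1.2) = ψ x.2 (g • r.1.2) := fun x k => by
    rw [← h1 _ _ _ k, smul_inv_smul, smul_smul, mul_inv_cancel_left]
  refine Eq.trans (Finset.sum_congr rfl fun x _ => ?_) ((Finset.sum_coe_sort T v).trans
    (Finset.sum_filter_of_ne fun x hx hv => ?_))
  · change (φ p.1.2 (x.1.1.2 • x.1.1.2⁻¹ • x.1.2) • cf f p.1.1 x.1.1.1 x.1.1.2) *
      (ψ (x.1.1.2⁻¹ • x.1.2) ((x.1.1.2⁻¹ * g) • r.1.2) • cf f' x.1.1.1 r.1.1 (x.1.1.2⁻¹ * g)) = _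
    rw [smul_inv_smul, e _ (Finset.mem_filter.1 x.2).2.1, smul_mul_smul_comm]
    rfl
  · have k : cf f p.1.1 x.1.1 x.1.2 ≠ 0 := fun c => hv (by simp only [v, c, zero_mul, smul_zero])
    refine ⟨k, (h2 _ _ _ k _ p.2 (x.1.2⁻¹ • x.2) ?_).resolve_right fun c => hv ?_⟩
    · rw [smul_inv_smul]
      exact mem_support_iff.1 (Finset.mem_product.1 hx).2
    · simp only [v, Finsupp.smul_apply, ← e x k, c _ _ _ r.2, smul_zero, zero_smul]

/-- the case where the first factor has no group part -/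
theorem mu_one_mul (h : ∀ i, ∀ c ∈ F.U i, ∀ c', φ c c' ≠ 0 →
      c' ∈ F'.U i ∨ ∀ (k : a.I) (g' : K), ∀ c'' ∈ F''.U k, ψ c' (g' • c'') = 0) :
    mu F F' 1 φ * mu F' F'' f' ψ = mu F F'' f' fun c => lx ψ (φ c) := by
  rw [mu_mul, Hm.one_mul]
  · intro i j g e c c'
    rw [(cf_one_ne e).2, one_smul, one_smul]
  · intro i j g e c hc c' k
    obtain ⟨rfl, rfl⟩ := cf_one_ne e
    rw [one_smul] at k
    exact h i c hc c' k

theorem pd_mu (n : a.I → ℤ) (dm : W → ℕ) :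
    pd (I := F.ob) (fun p => n p.1.1 - dm p.1.2) (mu F F' f φ) =
      mu F F' (pd n f) fun c => (-1 : ℤ) ^ dm c • φ c := hom_ext fun p q g => by
  rw [cf_pd, cf_mu, cf_mu, cf_pd, map_zsmul, Int.negOnePow_sub, Finsupp.smul_apply, smul_smul,
    smul_smul, Units.val_mul, Int.coe_negOnePow_natCast, smul_eq_mul]
  congr 1
  ring

theorem gd_mu {k e k' : ℤ} {n : a.I → ℤ} {dm : W → ℕ} (hf : Gd k n n f)
    (hd : ∀ (g : K) c, dm (g • c) = dm c)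
    (hφ : ∀ i, ∀ c ∈ F.U i, ∀ c', φ c c' ≠ 0 → (dm c' : ℤ) = dm c + e) (hk : k' + e = k) :
    Gd (I := F.ob) (J := F'.ob) k' (fun p => n p.1.1 - dm p.1.2) (fun p => n p.1.1 - dm p.1.2)
      (mu F F' f φ) := fun p q g => by
  by_cases c : φ p.1.2 (g • q.1.2) = 0
  · rw [cf_mu, c, zero_smul]
    exact zero_mem _
  · have := hφ _ _ p.2 _ c
    rw [hd] at this
    rw [cf_mu, show k' + (n p.1.1 - dm p.1.2) - (n q.1.1 - dm q.1.2) = k + n p.1.1 - n q.1.1 by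
      omega]
    exact zsmul_mem (hf _ _ g) _

end Pool.Agent.Work.MP_9d1ffa_al.Dg
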