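import Pool.Agent.Work.MP_9d1ffa_al.Sq.TrA

/-! The transferred complexes. -/

namespace Pool.Agent.Work.MP_9d1ffa_al.Dg

open Sq Finsupp

variable {X K W Y : Type} [Group K] [MulAction K W] [MulAction K Y] {Λ : DG}
  {ρ : K →* Equiv.Perm X} {N1 : Y → Y → Prop} {S : Finset K} {k d : ℕ} (t : CT K W Y N1 S k d)

/-- the signs of the cells -/
noncomputable def eps (c : W) : W →₀ ℤ := single c ((-1) ^ t.dm c)

theorem eps_ne {c c' : W} (h : eps t c c' ≠ 0) : c' = c := (single_apply_ne_zero.1 h).1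

theorem idm_ne {c c' : W} (h : idm c c' ≠ 0) : c' = c := (single_apply_ne_zero.1 h).1

theorem eps_inv (g : K) (c c' : W) : eps t (g • c) (g • c') = eps t c c' := by
  classical
  simp only [eps, single_apply, t.dm_inv, smul_left_cancel_iff]

theorem idm_inv (g : K) (c c' : W) : idm (g • c) (g • c') = idm c c' := by
  classical
  simp only [idm, single_apply, smul_left_cancel_iff]

theorem lx_idm (z : W →₀ ℤ) : lx idm z = z := by
  induction z using Finsupp.induction_linear with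
  | zero => exact map_zero _
  | add x y h h' => rw [map_add, h, h']
  | single c n => simp [idm]

theorem lx_idm' (φ : W → W →₀ ℤ) (c : W) : lx φ (idm c) = φ c := by simp [idm]

theorem lx_eps' (φ : W → W →₀ ℤ) (c : W) : lx φ (eps t c) = (-1 : ℤ) ^ t.dm c • φ c := by
  simp [eps]

theorem eps_eps (c : W) : (-1 : ℤ) ^ t.dm c • eps t c = idm c := by
  rw [eps, smul_single, smul_eq_mul, ← pow_add, (Even.add_self _).neg_one_pow, idm]

theorem eps_bd (c : W) : lx (eps t) (t.bd c) = -((-1 : ℤ) ^ t.dm c • t.bd c) := by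
  rw [linearCombination_apply, ← neg_smul]
  conv_rhs => rw [← sum_single (t.bd c)]
  rw [Finsupp.sum, Finsupp.sum, Finset.smul_sum]
  refine Finset.sum_congr rfl fun c' h => ?_
  rw [eps, smul_single, smul_single, ← t.bd_dm c c' (mem_support_iff.1 h), pow_succ, smul_eq_mul,
    smul_eq_mul]
  congr 1
  ring

theorem bd_o : t.bd t.o = 0 := Finsupp.ext fun c => by_contra fun h => by
  have := t.bd_dm _ _ h
  rw [t.dm_o] at this
  omega

theorem smul_o {g : K} {c : W} (h : g • c = t.o) : c = t.o := by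
  rw [← inv_smul_smul g c, h, t.o_inv]

/-- families that are closed under the differentials, up to the empty cell -/
structure Cl (a : Tw Λ ρ) (F : Fm a.ob W) : Prop where
  sub : ∀ i, ∀ c ∈ F.U i, c ∈ t.D k ∨ c = t.o
  δ : ∀ i j g, cf a.δ i j g ≠ 0 → ∀ c ∈ F.U i, g⁻¹ • c ∈ F.U j
  bd : ∀ i, ∀ c ∈ F.U i, ∀ c', t.bd c c' ≠ 0 → c' ∈ F.U i ∨ c' = t.o ∧ ∀ j, t.o ∉ F.U j

variable {t} {a : Tw Λ ρ} {F F' : Fm a.ob W} {f : Mor a a} {ψ : W → W →₀ ℤ}

theorem Cl.bd_bd (h : Cl t a F) (i : a.ob.I) (c : W) (hc : c ∈ F.U i) : lx t.bd (t.bd c) = 0 :=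
  (h.sub i c hc).elim (t.bd_bd c) fun e => by rw [e, bd_o, map_zero]

theorem Cl.eps_mul (h : Cl t a F) (h1 : ∀ (g : K) c c', ψ (g • c) (g • c') = ψ c c') :
    mu F F a.δ (eps t) * mu F F' f ψ = mu F F' (a.δ * f) fun c => (-1 : ℤ) ^ t.dm c • ψ c := by
  rw [mu_mul (fun _ _ g _ => h1 g) fun i j g e c hc c' k => Or.inl (by
    rw [← inv_smul_smul g c', eps_ne t k]
    exact h.δ i j g e c hc)]
  exact mu_congr fun _ c _ => lx_eps' t _ c

theorem Cl.bd_mul (h : Cl t a F) (h1 : (∀ j, t.o ∉ F.U j) →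
      ∀ (j : a.ob.I) (g : K), ∀ c ∈ F'.U j, ψ t.o (g • c) = 0) :
    mu F F 1 t.bd * mu F F' f ψ = mu F F' f fun c => lx ψ (t.bd c) :=
  mu_one_mul fun i c hc c' e => (h.bd i c hc c' e).elim Or.inl fun k => Or.inr (k.1 ▸ h1 k.2)

theorem eps_o (h : ∀ j, t.o ∉ F.U j) (j : a.ob.I) (g : K) (c : W) (hc : c ∈ F.U j) :
    eps t t.o (g • c) = 0 := by_contra fun e => h j (smul_o t (eps_ne t e) ▸ hc)

theorem Cl.dm_le (h : Cl t a F) (p : F.ob.I) : t.dm p.1.2 ≤ d :=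
  (h.sub _ _ p.2).elim (t.dm_le _) fun e => by rw [e, t.dm_o]; exact d.zero_le

theorem lo_tt {l : a.ob.I → ℕ} (hl : Lo l l a.δ) :
    Lo (I := F.ob) (J := F'.ob) (fun p => l p.1.1 + t.dm p.1.2) (fun p => l p.1.1 + t.dm p.1.2)
      (mu F F' a.δ (eps t) + mu F F' 1 t.bd) := by
  refine On.add (fun p q g e => ?_) fun p q g e => ?_
  · have h1 := hl _ _ _ (mu_ne e).2
    have h2 := t.dm_inv g q.1.2
    rw [eps_ne t (mu_ne e).1] at h2
    beta_reduce at h1 ⊢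
    omega
  · obtain ⟨h1, -, h2⟩ := mu_one_ne e
    have := t.bd_dm _ _ h2
    beta_reduce
    rw [h1]
    omega

theorem gd_eps {k : ℤ} (hf : Gd k a.deg a.deg f) :
    Gd (I := F.ob) (J := F'.ob) k (fun p => a.deg p.1.1 - t.dm p.1.2)
      (fun p => a.deg p.1.1 - t.dm p.1.2) (mu F F' f (eps t)) :=
  gd_mu (e := 0) hf t.dm_inv (fun _ _ _ _ e => by rw [eps_ne t e, add_zero]) (add_zero _)

theorem gd_bd : Gd (Λ := Λ) (ρ := ρ) (I := F.ob) (J := F'.ob) 1 (fun p => a.deg p.1.1 - t.dm p.1.2)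
    (fun p => a.deg p.1.1 - t.dm p.1.2) (mu F F' 1 t.bd) :=
  gd_mu (e := -1) gd_one t.dm_inv (fun _ c _ c' e => by
    have := t.bd_dm c c' e
    omega) (add_neg_cancel _)

theorem pd_mu_one (n : a.ob.I → ℤ) (dm : W → ℕ) :
    pd (Λ := Λ) (ρ := ρ) (I := F.ob) (fun p => n p.1.1 - dm p.1.2) (mu F F' 1 ψ) = 0 := by
  rw [pd_mu, isPm_one.pd, mu_zero_left]

theorem mu_neg_add (f : Mor a a) (φ : W → W →₀ ℤ) :
    mu F F' f (fun c => -φ c) + mu F F' f φ = 0 := by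
  rw [← mu_add_right]
  exact mu_eq_zero fun _ _ _ => neg_add_cancel _

/-- the transferred complex -/
@[reducible] noncomputable def TT (h : Cl t a F) : Tw Λ ρ where
  ob := F.ob
  deg p := a.deg p.1.1 - t.dm p.1.2
  δ := mu F F a.δ (eps t) + mu F F 1 t.bd
  gd := (gd_eps a.gd).add gd_bd
  mc := by
    rw [pd_add, pd_mu_one, pd_mu, Hm.add_mul, Hm.mul_add, Hm.mul_add, h.eps_mul (eps_inv t),
      h.eps_mul t.bd_inv, h.bd_mul eps_o, h.bd_mul fun _ _ _ _ _ => by rw [bd_o]; rfl,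
      mu_eq_zero h.bd_bd, Hm.mul_one, a.pd_eq, funext (eps_bd t), add_zero, add_zero, add_assoc,
      add_comm _ (mu F F a.δ fun c => -_), mu_neg_add, add_zero, ← mu_add_left, neg_add_cancel,
      mu_zero_left]
  lev := by
    obtain ⟨l, hl, k⟩ := a.lev
    obtain ⟨N, hN⟩ := bd_iff.1 hl
    exact ⟨_, bd_iff.2 ⟨N + d, fun p => Nat.add_lt_add_of_lt_of_le (hN _) (h.dm_le p)⟩, lo_tt k⟩

theorem sim_aug (x₀ : X) (h : Cl t a F) (ho : ∀ i, t.o ∈ F.U i)
    (hs : ∀ i, ∀ c ∈ F.U i, ∀ c', t.s c c' ≠ 0 → c' ∈ F.U i ∧ t.dm c' = t.dm c + 1) :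
    Sim (TT h) := by
  let a₀ := fr Λ ρ a.ob a.deg
  have h₀ : Cl t a₀ F := ⟨h.sub, fun _ _ _ e => absurd rfl e, h.bd⟩
  have e₀ : (TT h₀).δ = mu F F 1 t.bd := by
    change mu F F 0 _ + _ = _
    rw [mu_zero_left, zero_add]
  have g : Gd (-1) (TT h₀).deg (TT h).deg (mu F F 1 t.s : Mor (TT h₀) (TT h)) :=
    gd_mu (e := 1) gd_one t.dm_inv (fun i c hc c' e => by exact_mod_cast (hs i c hc c' e).2)
      (neg_add_cancel _)
  have e : mu (Λ := Λ) (ρ := ρ) F F 1 t.bd * mu F F 1 t.s + mu F F 1 t.s * mu F F 1 t.bd = 1 := by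
    rw [mu_one_mul fun i c hc c' e => Or.inl ((h.bd i c hc c' e).resolve_right fun k =>
        k.2 i (ho i)), mu_one_mul fun i c hc c' e => Or.inl (hs i c hc c' e).1, ← mu_add_right,
      ← mu_id]
    exact mu_congr fun i c hc => (add_comm _ _).trans (t.s_eq c (h.sub i c hc))
  have s₀ : Sim (TT h₀) := by
    refine Lc.sim (π := fun g : K => ρ g x₀) (p := fun _ => 1)
      (fun g z => by rw [smul_eq_mul, map_mul]; rfl) ⟨(Set.finite_range_const), ?_⟩
      ⟨_, g, ?_⟩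
    · rw [e₀]
      intro p q g e
      rw [(mu_one_ne e).2.1]
      exact (one_smul K _).symm
    · rw [D1, e₀, pd_mu_one (a := a₀), zero_add]
      exact e
  obtain ⟨l, hl, k⟩ := a.lev
  obtain ⟨N, hN⟩ := bd_iff.1 hl
  have k1 : ∀ φ, Lo (I := F.ob) (J := F.ob) (fun p => l p.1.1) (fun p => l p.1.1)
      (mu F F a.δ φ) := fun φ p q g e => k _ _ g (mu_ne e).2
  have k2 : ∀ φ, Wk (R := Λ.A) (ρ := ρ) (I := F.ob) (J := F.ob) (fun p => l p.1.1)
      (fun p => l p.1.1) (mu F F 1 φ) := fun φ p q g e => (congrArg l (mu_one_ne e).1).ge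
  refine s₀.of_se (si_of_weak (a := TT h₀) (b := TT h) (e := Equiv.refl _) isPm_one (fun _ => rfl)
    (ch_D1 g) (fun p => l p.1.1) (bd_iff.2 ⟨N, fun p => hN _⟩) (e₀ ▸ k2 _)
    (((k1 _).mono fun _ _ _ => le_of_lt).add (k2 _)) ?_).se.symm
  have : D1 (TT h₀) (TT h) (mu F F 1 t.s) - 1 = mu F F 1 t.s * mu F F a.δ (eps t) := by
    rw [D1, e₀, pd_mu_one (a := a₀), zero_add, ← e]
    change _ + _ * (_ + _) - _ = _
    rw [Hm.mul_add]
    abel
  rw [this]
  exact (k2 _).mul (k1 _) fun _ _ _ _ _ x y => lt_of_lt_of_le y x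

theorem sim_down (x₀ : X) (h : Cl t a F) (hm : ∀ i, ∃ m ≤ k, F.U i = t.D m) (H : Sim (TT h)) :
    Sim a := by
  classical
  have no : ∀ j, t.o ∉ F.U j := fun j e => by
    obtain ⟨m, h1, h2⟩ := hm j
    exact t.o_nm (t.mono h1 (h2 ▸ e))
  let F₁ : Fm a.ob W := ⟨fun _ => {t.o}, (Set.finite_singleton t.o).subset
    (Set.iUnion_subset fun _ => subset_rfl)⟩
  let F' : Fm a.ob W := ⟨fun i => insert t.o (F.U i), (F.fin.insert t.o).subset
    (Set.iUnion_subset fun i => Set.insert_subset_insert (Set.subset_iUnion _ i))⟩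
  have h₁ : Cl t a F₁ := ⟨fun _ _ e => Or.inr e, fun _ _ g _ c e => by
    rw [show c = t.o from e, t.o_inv]; rfl, fun _ c e c' k => by
    rw [show c = t.o from e, bd_o] at k; exact absurd rfl k⟩
  have h' : Cl t a F' := ⟨fun i c e => e.elim Or.inr (h.sub i c), fun i j g e c hc =>
    hc.imp (fun k => by rw [k, t.o_inv]) (h.δ i j g e c), fun i c hc c' k => Or.inl (by
      rcases hc with rfl | hc
      · rw [bd_o] at k; exact absurd rfl k
      · exact (h.bd i c hc c' k).elim Or.inr fun e => Or.inl e.1)⟩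
  have s' : Sim (TT h') := sim_aug x₀ h' (fun _ => Or.inl rfl) fun i c hc c' e => by
    obtain ⟨m, h1, h2⟩ := hm i
    have := t.s_mem m h1 c (h2 ▸ Or.symm hc) c' e
    exact ⟨Or.inr (h2 ▸ this.1), this.2⟩
  have z : mu (Λ := Λ) (ρ := ρ) F₁ F₁ 1 t.bd = 0 :=
    mu_eq_zero fun _ c e => by rw [show c = t.o from e, bd_o]
  have co : Co (TT h) (TT h₁) (mu F F₁ 1 t.bd) := ⟨gd_bd, by
    rw [D1, pd_mu_one]
    change _ + (_ + _) * _ + _ * (_ + _) = _
    rw [z, add_zero, Hm.add_mul, h.eps_mul t.bd_inv, h.bd_mul fun _ _ _ _ _ => by rw [bd_o]; rfl,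
      mu_eq_zero h.bd_bd, Hm.mul_one, mu_one_mul (F' := F₁) (F'' := F₁) fun i c hc c' e =>
        (em (c' = t.o)).imp_right
        fun k j g c'' e' => by_contra fun e'' => k (by
          rw [← eps_ne t e'', show c'' = t.o from e', t.o_inv]), funext (eps_bd t), zero_add,
      add_zero, add_comm, mu_neg_add]⟩
  let e₁ : a.ob.I ≃ F₁.ob.I := ⟨fun i => ⟨(i, t.o), rfl⟩, fun p => p.1.1, fun _ => rfl,
    fun p => Subtype.ext (Prod.ext rfl (Eq.symm p.2))⟩
  have s₁ : SE a (TT h₁) := se_perm e₁ (fun _ => rfl) (fun _ => rfl)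
    (fun i => by change a.deg i - (t.dm t.o : ℕ) = _; rw [t.dm_o]; simp) fun i j g => by
      change _ = cf (_ + _) _ _ _
      rw [z, add_zero, cf_mu]
      change _ = eps t t.o (g • t.o) • cf a.δ i j g
      rw [t.o_inv, eps, single_eq_same, t.dm_o, pow_zero, one_smul]
  let e₂ : F.ob.I ⊕ F₁.ob.I ≃ F'.ob.I := Equiv.ofBijective
    (Sum.elim (fun p => ⟨p.1, Or.inr p.2⟩) fun p => ⟨p.1, Or.inl p.2⟩) ⟨by
      rintro (p | p) (q | q) e
      · exact congrArg _ (Subtype.ext (congrArg (fun z : F'.ob.I => z.1) e))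
      · have e' : p.1 = q.1 := congrArg Subtype.val e
        exact absurd ((show q.1.2 = t.o from q.2) ▸ e' ▸ p.2) (no _)
      · have e' : q.1 = p.1 := congrArg Subtype.val e.symm
        exact absurd ((show p.1.2 = t.o from p.2) ▸ e' ▸ q.2) (no _)
      · exact congrArg _ (Subtype.ext (congrArg (fun z : F'.ob.I => z.1) e)),
    fun p => p.2.elim (fun e => ⟨Sum.inr ⟨p.1, e⟩, rfl⟩) fun e => ⟨Sum.inl ⟨p.1, e⟩, rfl⟩⟩
  have s₂ : SE (tsum (TT h) (TT h₁) _ co) (TT h') := by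
    refine se_perm e₂ (by rintro (p | p) <;> rfl) (by rintro (p | p) <;> rfl)
      (by rintro (p | p) <;> rfl) ?_
    rintro (p | p) (q | q) g
    · exact cf_blocks₁₁ g _ _ _ _ p q
    · refine (cf_blocks₁₂ g _ _ _ _ p q).trans ?_
      change _ = eps t p.1.2 (g • q.1.2) • cf a.δ p.1.1 q.1.1 g + cf (mu F F₁ 1 t.bd) p q g
      rw [show eps t p.1.2 (g • q.1.2) = 0 from by_contra fun e => no p.1.1 (by
        rw [← t.o_inv g, ← show q.1.2 = t.o from q.2, eps_ne t e]; exact p.2), zero_smul, zero_add]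
    · refine (cf_blocks₂₁ g _ _ _ _ p q).trans ?_
      change _ = eps t p.1.2 (g • q.1.2) • cf a.δ p.1.1 q.1.1 g +
        t.bd p.1.2 (g • q.1.2) • cf (1 : Mor a a) p.1.1 q.1.1 g
      rw [show p.1.2 = t.o from p.2, eps_o no _ g _ q.2, bd_o, zero_smul, zero_add]
      exact (zero_smul _ _).symm
    · exact cf_blocks₂₂ g _ _ _ _ p q
  exact ((H.tsum_left co).1 (s'.of_se s₂)).of_se s₁

end Pool.Agent.Work.MP_9d1ffa_al.Dg
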