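import Pool.Agent.Work.MP_9d1ffa_al.Sq.TrB

/-! The transfer of a contraction. -/

namespace Pool.Agent.Work.MP_9d1ffa_al.Dg

open Sq Finsupp

variable {X K W Y : Type} [Group K] [MulAction K W] [MulAction K Y] {Λ : DG}
  {ρ : K →* Equiv.Perm X}

theorem on_sum {R ι : Type} [Ring R] {I J : Ob X} {T : I.I → J.I → K → Prop} {s : Finset ι}
    {f : ι → (OA R ρ).Hom I J} (h : ∀ i ∈ s, On T (f i)) : On T (∑ i ∈ s, f i) :=
  Finset.sum_induction f (On T) (fun _ _ => On.add) on_zero h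

theorem ch_pow {a : Tw Λ ρ} {f : Mor a a} (h : Ch a a f) (n : ℕ) : Ch a a (f ^ n) := by
  induction n with
  | zero => rw [pow_zero]; exact ch_one
  | succ n ih => rw [pow_succ]; exact ih.mul h

/-- the algebra: powers of a deformation retract onto a subcomplex -/
theorem hn_of_def {Nb : ℕ → Y → Y → Prop} (hs : Sca K Nb) {b c : Tw Λ ρ} {yb : b.ob.I → Y}
    {yc : c.ob.I → Y} {i Γ : Mor b c} {r : Mor c b} {H : Mor c c} {l : c.ob.I → ℕ} {L : ℕ}
    {U : c.ob.I → Prop} (hi : Cc Nb yb yc 0 i) (hr : Ct Nb yc yb 0 r) (gr : Gd 0 c.deg b.deg r)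
    (e : i * r = 1) (hU : ∀ f : Mor b c, On (fun _ q _ => U q) f → f * (r * i) = f)
    (iU : On (fun _ q _ => U q) i) (gΓ : Gd (-1) b.deg c.deg Γ) (cΓ : Ct Nb yb yc 1 Γ)
    (eΓ : D1 b c Γ = i) (gH : Gd (-1) c.deg c.deg H) (cH : Ct Nb yc yc 1 H)
    (cδ : Ct Nb yc yc 1 c.δ) (uH : On (fun p q _ => U p → U q) H)
    (uδ : On (fun p q _ => U p → U q) c.δ) (hl : ∀ p, l p < L)
    (h : On (fun p q _ => U q ∨ l q < l p) (1 - D1 c c H)) :
    Hn Nb yb yb (2 * L + 1) (1 : Mor b b) := by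
  have t : ∀ {f g : Mor c c}, On (fun p q _ => U p → U q) f → On (fun p q _ => U p → U q) g →
      On (fun p q _ => U p → U q) (f * g) := fun x y => x.mul y fun _ _ _ _ _ u v w => v (u w)
  have uP : On (fun p q _ => U p → U q) (1 - D1 c c H) :=
    (on_one fun _ => id).sub (((uH.pd _).add (t uδ uH)).add (t uH uδ))
  have cP : Cc Nb yc yc 2 (1 - D1 c c H) :=
    ⟨ch_one.sub (ch_D1 gH), (ct_one hs (n := 0)).sub hs (Ct.D1 hs cδ cδ cH)⟩
  have eP : D1 c c H = 1 - (1 - D1 c c H) := (sub_sub_cancel _ _).symm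
  generalize 1 - D1 c c H = P at h uP cP eP
  have u1 : ∀ n, On (fun p q _ => U p → U q) (P ^ n) := fun n => by
    induction n with
    | zero => rw [pow_zero]; exact on_one fun _ => id
    | succ n ih => rw [pow_succ]; exact t ih uP
  have u2 : ∀ n, On (fun p q _ => U q ∨ l q + n ≤ l p) (P ^ n) := fun n => by
    induction n with
    | zero => rw [pow_zero]; exact on_one fun _ => Or.inr le_rfl
    | succ n ih =>
      rw [pow_succ]
      exact ih.mul (uP.and h) fun _ _ _ _ _ u v => u.elim (fun w => Or.inl (v.1 w)) fun w =>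
        v.2.imp_right fun z => by omega
  have c1 : Cc Nb yc yc (L * 2) (P ^ L) := ⟨ch_pow cP.ch L, cP.ct.pow hs L⟩
  have c2 : Cc Nb yc yc (L * 2) (∑ j ∈ Finset.range L, P ^ j) :=
    ⟨Finset.sum_induction _ (Ch c c) (fun _ _ => Ch.add) ch_zero fun j _ => ch_pow cP.ch j,
      on_sum fun j hj => (cP.ct.pow hs j).mono hs
        (Nat.mul_le_mul_right _ (Finset.mem_range.1 hj).le)⟩
  have gG : Gd (-1) b.deg c.deg (i * (H * ∑ j ∈ Finset.range L, P ^ j) + Γ * P ^ L) :=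
    (hi.ch.gd.mul' (gH.mul' c2.ch.gd (add_zero _)) (zero_add _)).add
      (gΓ.mul' c1.ch.gd (add_zero _))
  have cG : Ct Nb yb yc (2 * L + 1) (i * (H * ∑ j ∈ Finset.range L, P ^ j) + Γ * P ^ L) :=
    On.add ((hi.ct.mul hs (cH.mul hs c2.ct)).mono hs (by omega))
      ((cΓ.mul hs c1.ct).mono hs (by omega))
  have uG : On (fun _ q _ => U q) (i * (H * ∑ j ∈ Finset.range L, P ^ j) + Γ * P ^ L) :=
    (iU.mul (t uH (on_sum fun j _ => u1 j)) fun _ _ _ _ _ u v => v u).add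
      ((on_true Γ).mul (u2 L) fun _ j _ _ _ _ v => v.resolve_right fun z => by
        have := hl j
        omega)
  have eG : D1 b c (i * (H * ∑ j ∈ Finset.range L, P ^ j) + Γ * P ^ L) = i := by
    rw [D1_add, ← hi.ch.mul_D1, ← c2.ch.D1_mul gH odd_neg_one', ← c1.ch.D1_mul gΓ odd_neg_one',
      eΓ, eP, ← Hm.mul_add]
    exact (congrArg (i * ·) ((congrArg (· + P ^ L) (mul_neg_geom_sum P L)).trans
      (sub_add_cancel _ _))).trans (Hm.mul_one i)
  generalize i * (H * ∑ j ∈ Finset.range L, P ^ j) + Γ * P ^ L = G at gG cG uG eG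
  have g := gG.mul' gr (add_zero _)
  refine ⟨G * r, g, (cG.mul hs hr :), ?_⟩
  rw [← Hm.mul_one (D1 b b (G * r)), ← e, ← Hm.mul_assoc, hi.ch.D1_mul g odd_neg_one',
    Hm.mul_assoc G, hU G uG, eG]

theorem transfer {Nb : ℕ → Y → Y → Prop} (hs : Sca K Nb) {S : Finset K} {L d : ℕ}
    (t : CT K W Y (Nb 1) S (2 * L + 2) d) (x₀ : X) (a : Tw Λ ρ) {l : a.ob.I → ℕ}
    (hl : ∀ i, l i < L) (hδ : Lo l l a.δ) {Γ : Mor a a} (gΓ : Gd (-1) a.deg a.deg Γ)
    (eΓ : D1 a a Γ = 1) (sδ : On (fun _ _ g => g⁻¹ ∈ S) a.δ) (sΓ : On (fun _ _ g => g⁻¹ ∈ S) Γ) :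
    ∃ (b : Tw Λ ρ) (y : b.ob.I → Y) (l' : b.ob.I → ℕ), (Set.range y).Finite ∧
      (∀ i, l' i < L + d) ∧ Lo l' l' b.δ ∧ Ct Nb y y (2 * L + 1) b.δ ∧
      Hn Nb y y (2 * L + 1) (1 : Mor b b) ∧ (Sim b → Sim a) := by
  classical
  let F : Fin 2 → Fm a.ob W := fun s => ⟨fun i => t.D (L - l i + s * (L + 1)),
    t.fin.subset (Set.iUnion_subset fun i => t.mono (by have := s.2; nlinarith [Nat.sub_le L (l i)]))⟩
  have lt : ∀ (s : Fin 2) i, L - l i + s * (L + 1) < 2 * L + 2 := fun s i => by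
    have := s.2
    nlinarith [Nat.sub_le L (l i)]
  have sub : ∀ s i, ∀ c ∈ (F s).U i, c ∈ t.D (2 * L + 2) := fun s i c hc => t.mono (lt s i).le hc
  have no : ∀ s i, t.o ∉ (F s).U i := fun s i e => t.o_nm (sub s i _ e)
  have cl : ∀ s, Cl t a (F s) := fun s => ⟨fun i c hc => Or.inl (sub s i c hc),
    fun i j g e c hc => t.mono (by
      have h1 : l j < l i := hδ i j g e
      have := hl i
      omega) (t.act _ (lt s i) _ (sδ i j g e) c hc),
    fun i c hc c' e => (t.bd_mem _ c hc c' e).imp_right fun k => ⟨k, no s⟩⟩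
  have inc : ∀ i, ∀ c ∈ (F 0).U i, c ∈ (F 1).U i := fun i c hc =>
    t.mono (Nat.add_le_add_left (by simp) _) hc
  have step : ∀ i j g, cf Γ i j g ≠ 0 → ∀ c ∈ (F 0).U i, g⁻¹ • c ∈ (F 1).U j :=
    fun i j g e c hc => t.mono (by
      simp only [Fin.val_zero, Fin.val_one]
      omega) (t.act _ (lt 0 i) _ (sΓ i j g e) c hc)
  have ce : ∀ (s s' : Fin 2) {f : Mor a a}, On (fun _ _ g => g⁻¹ ∈ S) f →
      Ct Nb (I := (F s).ob) (J := (F s').ob) (fun p => t.y p.1.2) (fun p => t.y p.1.2) 1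
        (mu (F s) (F s') f (eps t)) := fun s s' f h p q g e => by
    have k : q.1.2 = g⁻¹ • p.1.2 := by rw [← eps_ne t (mu_ne e).1, inv_smul_smul]
    have := t.y_act g⁻¹ (h _ _ _ (mu_ne e).2) _ (sub _ _ _ p.2) (k ▸ sub _ _ _ q.2)
    rwa [inv_inv, ← k] at this
  have c1 : ∀ (s s' : Fin 2) {n : ℕ} {φ : W → W →₀ ℤ}, (∀ i, ∀ c ∈ (F s).U i, ∀ c' ∈ (F s').U i,
      φ c c' ≠ 0 → Nb n (t.y c) (t.y c')) → Ct (R := Λ.A) (ρ := ρ) Nb (I := (F s).ob)
        (J := (F s').ob) (fun p => t.y p.1.2) (fun p => t.y p.1.2) n (mu (F s) (F s') 1 φ) :=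
    fun s s' n φ h p q g e => by
      obtain ⟨h1, rfl, h2⟩ := mu_one_ne e
      change Nb n _ ((1 : K) • t.y q.1.2)
      rw [one_smul]
      exact h _ _ p.2 _ (h1 ▸ q.2) h2
  have cδ : ∀ s, Ct Nb (I := (F s).ob) (J := (F s).ob) (fun p => t.y p.1.2) (fun p => t.y p.1.2) 1
      (TT (cl s)).δ := fun s =>
    On.add (ce s s sδ) (c1 s s fun i c hc c' hc' => t.y_bd c (sub s i c hc) c' (sub s i c' hc'))
  have ci : ∀ s s', Ct (R := Λ.A) (ρ := ρ) Nb (I := (F s).ob) (J := (F s').ob)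
      (fun p => t.y p.1.2) (fun p => t.y p.1.2) 0 (mu (F s) (F s') 1 idm) := fun s s' =>
    c1 s s' fun _ _ _ _ _ e => idm_ne e ▸ hs.rf _ _
  have gi : ∀ s s', Gd 0 (TT (cl s)).deg (TT (cl s')).deg
      (mu (F s) (F s') 1 idm : Mor (TT (cl s)) (TT (cl s'))) := fun s s' =>
    gd_mu (e := 0) gd_one t.dm_inv (fun _ _ _ _ e => by rw [idm_ne e, add_zero]) (add_zero _)
  have il : ∀ (f : Mor a a) (ψ : W → W →₀ ℤ), mu (F 0) (F 1) 1 idm * mu (F 1) (F 1) f ψ =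
      mu (F 0) (F 1) f ψ := fun f ψ => by
    rw [mu_one_mul fun i c hc c' e => Or.inl (idm_ne e ▸ inc i c hc), funext (lx_idm' ψ)]
  refine ⟨TT (cl 0), fun p => t.y p.1.2, fun p => l p.1.1 + t.dm p.1.2,
    (t.fin.image t.y).subset ?_, fun p => Nat.add_lt_add_of_lt_of_le (hl _) ((cl 0).dm_le p),
    lo_tt hδ, (cδ 0).mono hs (Nat.le_add_left _ _), ?_, sim_down x₀ (cl 0) fun i => ⟨_, (lt 0 i).le, rfl⟩⟩
  · rintro _ ⟨p, rfl⟩
    exact ⟨_, sub _ _ _ p.2, rfl⟩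
  have hH := fun i c hc => t.H_mem _ (lt 1 i).le c hc
  have ri : (mu (F 1) (F 0) 1 idm * mu (F 0) (F 1) 1 idm : Mor (TT (cl 1)) (TT (cl 1))) =
      fl (fun _ (q : (F 1).ob.I) _ => q.1.2 ∈ (F 0).U q.1.1) 1 := by
    refine hom_ext fun p q g => ?_
    have m : IsPm (mu (F 0) (F 1) 1 idm : Mor (TT (cl 0)) (TT (cl 1)))
        (fun p => ⟨p.1, inc _ _ p.2⟩) (fun _ => 1) fun _ => 1 := isPm_of_cf fun p q g => by
      have := congrArg (fun A => cf A (⟨p.1, inc _ _ p.2⟩ : (F 1).ob.I) q g)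
        (mu_id (Λ := Λ) (ρ := ρ) (F := F 1))
      refine Eq.trans this ?_
      rw [cf_one]
      simp only [eq_comm (a := g), Units.val_one, Int.cast_one]
    rw [cf_fl]
    split_ifs with h
    · refine (m.mul_cf _ p ⟨q.1, h⟩ g fun i' e _ =>
        Subtype.ext (congrArg (fun z : (F 1).ob.I => z.1) e)).trans ?_
      rw [← mu_id, inv_one, mul_one, Units.val_one, one_smul]
      rfl
    · by_contra c
      obtain ⟨j, g₁, g₂, -, -, k⟩ := cf_mul_ne c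
      exact h ((m.on _ _ _ k).1 ▸ j.2)
  refine hn_of_def hs (c := TT (cl 1)) (yc := fun p => t.y p.1.2) (i := mu (F 0) (F 1) 1 idm)
    (Γ := mu (F 0) (F 1) Γ (eps t)) (r := mu (F 1) (F 0) 1 idm) (H := mu (F 1) (F 1) 1 t.H)
    (l := fun p => l p.1.1) (U := fun q => q.1.2 ∈ (F 0).U q.1.1) ⟨⟨gi 0 1, ?_⟩, ci 0 1⟩ (ci 1 0)
    (gi 1 0) ?_ (fun f h => ?_) (fun p q g e => ?_) (gd_eps gΓ) (ce 0 1 sΓ) ?_
    (gd_mu (e := 1) gd_one t.dm_inv (fun i c hc c' e => by exact_mod_cast (hH i c hc c' e).2.1)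
      (neg_add_cancel _)) (c1 1 1 fun i c hc c' _ e => (hH i c hc c' e).2.2) (cδ 1)
    (fun p q g e h => ?_) (On.add (fun p q g e h => ?_) fun p q g e h => ?_) (fun p => hl _) ?_
  · rw [D0, pd_mu_one]
    change _ + (_ + _) * _ - _ * (_ + _) = _
    rw [Hm.add_mul, Hm.mul_add, il, il, (cl 0).eps_mul idm_inv, (cl 0).bd_mul fun _ j g c hc =>
      by_contra fun e => no 1 j (smul_o t (idm_ne e) ▸ hc), Hm.mul_one, zero_add,
      funext fun c => lx_idm (t.bd c), mu_congr (ψ := eps t) fun _ c _ => by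
        rw [idm, eps, smul_single, smul_eq_mul, mul_one], sub_self]
  · rw [mu_one_mul fun i c hc c' e => Or.inl (idm_ne e ▸ inc i c hc), funext (lx_idm' idm), mu_id]
  · rw [ri, ← fl_mul_left (on_true f) _ (U := fun _ (q : (F 1).ob.I) _ =>
      q.1.2 ∈ (F 0).U q.1.1)
      fun _ _ _ _ _ _ => Iff.rfl, Hm.mul_one, h.fl_eq]
  · obtain ⟨h1, -, h2⟩ := mu_one_ne e
    rw [idm_ne h2, ← h1]
    exact p.2
  · rw [D1, pd_mu]
    change _ + (_ + _) * _ + _ * (_ + _) = _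
    rw [Hm.add_mul, Hm.mul_add, (cl 0).eps_mul (eps_inv t), (cl 0).bd_mul fun _ => eps_o (no 1),
      mu_mul (fun _ _ g _ => eps_inv t g) fun i j g e c hc c' k => Or.inl (by
        rw [← inv_smul_smul g c', eps_ne t k]; exact step i j g e c hc),
      mu_mul (fun _ _ g _ => t.bd_inv g) fun i j g e c hc c' k => Or.inl (by
        rw [← inv_smul_smul g c', eps_ne t k]; exact step i j g e c hc), Hm.mul_one,
      funext (eps_bd t), funext (lx_eps' t t.bd), funext (lx_eps' t (eps t)), funext (eps_eps t),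
      ← eΓ, D1, mu_add_left, mu_add_left, ← sub_eq_zero, ← mu_neg_add (F := F 0) (F' := F 1) Γ
        fun c => (-1 : ℤ) ^ t.dm c • t.bd c]
    abel
  · obtain ⟨h1, -, h2⟩ := mu_one_ne e
    exact h1 ▸ (t.H_mem _ (lt 0 _).le _ h _ h2).1
  · rw [← inv_smul_smul g q.1.2, eps_ne t (mu_ne e).1]
    exact (cl 0).δ _ _ g (mu_ne e).2 _ h
  · obtain ⟨h1, -, h2⟩ := mu_one_ne e
    exact h1 ▸ ((cl 0).bd _ _ h _ h2).resolve_right fun k => no 1 _ (k.1 ▸ q.2)
  · have k1 : Lo (I := (F 1).ob) (J := (F 1).ob) (fun p => l p.1.1) (fun p => l p.1.1)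
        (mu (F 1) (F 1) a.δ (eps t)) := fun p q g e => hδ _ _ g (mu_ne e).2
    have k2 : Wk (R := Λ.A) (ρ := ρ) (I := (F 1).ob) (J := (F 1).ob) (fun p => l p.1.1)
        (fun p => l p.1.1) (mu (F 1) (F 1) 1 t.H) :=
      fun p q g e => (congrArg l (mu_one_ne e).1).ge
    have e : 1 - D1 (TT (cl 1)) (TT (cl 1)) (mu (F 1) (F 1) 1 t.H) =
        mu (F 1) (F 1) 1 (idm - (fun c => lx t.bd (t.H c)) - fun c => lx t.H (t.bd c)) -
          (mu (F 1) (F 1) a.δ (eps t) * mu (F 1) (F 1) 1 t.H +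
            mu (F 1) (F 1) 1 t.H * mu (F 1) (F 1) a.δ (eps t)) := by
      rw [D1, pd_mu_one, mu_sub_right, mu_sub_right, mu_id,
        ← (cl 1).bd_mul fun _ _ _ _ _ => by rw [t.H_o]; rfl,
        ← mu_one_mul (F' := F 1) fun i c hc c' e => Or.inl (hH i c hc c' e).1]
      change 1 - (_ + (_ + _) * _ + _ * (_ + _)) = _
      rw [Hm.add_mul, Hm.mul_add]
      abel
    rw [e]
    refine On.sub (fun p q g e => Or.inl ?_)
      ((k1.mul k2 fun _ _ _ _ _ x y => Or.inr (lt_of_le_of_lt y x)).add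
        (k2.mul k1 fun _ _ _ _ _ x y => Or.inr (lt_of_lt_of_le y x)))
    exact t.mono (Nat.zero_le _) (t.H_eq _ (sub _ _ _ p.2) _ (mu_one_ne e).2.2)

end Pool.Agent.Work.MP_9d1ffa_al.Dg
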